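import Pool.Agent.T6.H6.LC.Loc
import Pool.Agent.Y603.MS.Level

/-!
# Patterns in sets defined by circuits of constant depth over a finite alphabet
-/

set_option autoImplicit false

namespace Pool.Agent.T6.H6.LC

open Finset H568R2 Pool.Agent.TH163.AC3 Pool.Agent.Y603.MS

set_option linter.unusedSectionVars false

section A
variable {I : Type} [DecidableEq I] {K : Type} [Field K]

lemma LD.tree (t : Pool.Agent.TH163.AC3.Tree I) :
    (fun x => if t.eval x = true then (1 : K) else 0) ∈ LD I K t.depth := by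
  induction t with
  | leaf b => exact LD.const (K := K) (if b = true then (1 : K) else 0) _
  | node i a b iha ihb =>
    have ha : (fun x => if a.eval x = true then (1 : K) else 0) ∈ LD I K (max a.depth b.depth) :=
      LD.mono (le_max_left _ _) iha
    have hb : (fun x => if b.eval x = true then (1 : K) else 0) ∈ LD I K (max a.depth b.depth) :=
      LD.mono (le_max_right _ _) ihb
    have h1 := Submodule.add_mem _ (LD.mul (LD.coord (K := K) i) hb)
      (LD.mul (LD.coord' (K := K) i) ha)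
    rw [add_comm 1] at h1
    refine (congrArg (· ∈ LD I K (max a.depth b.depth + 1)) (funext fun x => ?_)).mp h1
    simp only [Pi.add_apply, Pi.mul_apply, Pool.Agent.TH163.AC3.Tree.eval]
    by_cases hxi : x i = true
    · simp [hxi]
    · simp [hxi]

lemma LD.hasDT {s : ℕ} {f : (I → Bool) → Bool} (h : HasDT s f) :
    (fun x => if f x = true then (1 : K) else 0) ∈ LD I K s := by
  obtain ⟨t, ht, he⟩ := h
  have h1 := LD.mono ht (LD.tree (K := K) t)
  refine (congrArg (· ∈ LD I K s) (funext fun x => ?_)).mp h1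
  rw [he x]

lemma LD.hasDT_xor {s : ℕ} {f : (I → Bool) → Bool} (c : Bool) (h : HasDT s fun x => xor c (f x)) :
    (fun x => if f x = true then (1 : K) else 0) ∈ LD I K s := by
  cases c with
  | false =>
    have := LD.hasDT (K := K) h
    simpa using this
  | true =>
    have h1 := Submodule.sub_mem _ (LD.const (K := K) 1 s) (LD.hasDT (K := K) h)
    refine (congrArg (· ∈ LD I K s) (funext fun x => ?_)).mp h1
    simp only [Pi.sub_apply]
    cases f x <;> simp

/-- the degree of a function which has low degree at the leaves of a tree -/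
lemma LD.dt {Q : Restr I → Prop} {m : ℕ} (h : (I → Bool) → K)
    (hQ : ∀ ρ, Q ρ → (fun x => h (ov ρ x)) ∈ LD I K m) {t : ℕ} {ρ : Restr I} (hd : Dt Q t ρ) :
    (fun x => h (ov ρ x)) ∈ LD I K (t + m) := by
  induction hd with
  | leaf t ρ hq => exact LD.mono (by omega) (hQ ρ hq)
  | node t ρ i _ ih =>
    cases hρ : ρ i with
    | some c =>
      have h1 := ih c
      have h2 : Function.update ρ i (some c) = ρ := by
        rw [← hρ]; exact Function.update_eq_self i ρ
      rw [h2] at h1
      exact LD.mono (by omega) h1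
    | none =>
      have h1 := Submodule.add_mem _ (LD.mul (LD.coord (K := K) i) (ih true))
        (LD.mul (LD.coord' (K := K) i) (ih false))
      rw [show 1 + (t + m) = t + 1 + m by ring] at h1
      refine (congrArg (· ∈ LD I K (t + 1 + m)) (funext fun x => ?_)).mp h1
      simp only [Pi.add_apply, Pi.mul_apply]
      have h3 : ∀ b, x i = b → ov (Function.update ρ i (some b)) x = ov ρ x := by
        intro b hb
        funext j
        unfold ov
        by_cases hj : j = i
        · subst hj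
          simp [hρ, hb]
        · rw [Function.update_of_ne hj]
      cases hxi : x i
      · rw [h3 false hxi]
        simp
      · rw [h3 true hxi]
        simp

end A

section B
variable {n w : ℕ} {L : Type} [Fintype L] [DecidableEq L]

/-- A circuit with `n` inputs from the alphabet `L`. -/
structure ACirc (L : Type) (w n : ℕ) where
  Node : Type
  [finite : Finite Node]
  val : Node → (Fin n → L) → Bool
  depth : Node → ℕ
  rule : ∀ v : Node, (∃ (i : Fin n) (D : L → Bool), ∀ x, val v x = D (x i)) ∨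
    ∃ J : Finset (Node × Bool), (∀ u ∈ J, depth u.1 < depth v) ∧
      ((J.card ≤ w ∧ ∃ F : Finset (Node × Bool) → Bool,
          ∀ x, val v x = F (J.filter fun u => val u.1 x = u.2)) ∨
        (∀ x, val v x = decide (∀ u ∈ J, val u.1 x = u.2)) ∨
        (∀ x, val v x = decide (∃ u ∈ J, val u.1 x = u.2)))

lemma xor_eq_xor (a b c : Bool) : (xor a b = xor a c) ↔ b = c := by
  cases a <;> cases b <;> cases c <;> simp

lemma bool_rule (C : ACirc L w n) (σ : Fin n → Equiv.Perm L) (u : Fin n → L) :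
    ∃ s : C.Node → Bool, ∀ v,
      (∃ i, ∀ b, xor (s v) (C.val v (full σ u b)) = b i) ∨
      ∃ J : Finset (C.Node × Bool), (∀ p ∈ J, C.depth p.1 < C.depth v) ∧
        ((J.card ≤ w ∧ ∃ F : Finset (C.Node × Bool) → Bool,
            ∀ b, xor (s v) (C.val v (full σ u b)) =
              F (J.filter fun p => xor (s p.1) (C.val p.1 (full σ u b)) = p.2)) ∨
          (∀ b, xor (s v) (C.val v (full σ u b)) =
            decide (∀ p ∈ J, xor (s p.1) (C.val p.1 (full σ u b)) = p.2)) ∨
          (∀ b, xor (s v) (C.val v (full σ u b)) =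
            decide (∃ p ∈ J, xor (s p.1) (C.val p.1 (full σ u b)) = p.2))) := by
  classical
  have h1 : ∀ v, ∃ c : Bool, (∃ i, ∀ b, xor c (C.val v (full σ u b)) = b i) ∨
      (∃ a, ∀ b, xor c (C.val v (full σ u b)) = a) ∨
      (c = false ∧ ∃ J : Finset (C.Node × Bool), (∀ p ∈ J, C.depth p.1 < C.depth v) ∧
        ((J.card ≤ w ∧ ∃ F : Finset (C.Node × Bool) → Bool,
            ∀ x, C.val v x = F (J.filter fun u => C.val u.1 x = u.2)) ∨
          (∀ x, C.val v x = decide (∀ u ∈ J, C.val u.1 x = u.2)) ∨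
          (∀ x, C.val v x = decide (∃ u ∈ J, C.val u.1 x = u.2)))) := by
    intro v
    rcases C.rule v with ⟨i, D, hD⟩ | hJ
    · have h2 : ∀ b : Fin n → Bool, C.val v (full σ u b) =
          if b i = true then D (σ i (u i)) else D (u i) := by
        intro b
        rw [hD]
        unfold full
        split_ifs <;> rfl
      cases ha : D (u i) with
      | false =>
        cases hc : D (σ i (u i)) with
        | false =>
          refine ⟨false, Or.inr (Or.inl ⟨false, fun b => ?_⟩)⟩
          rw [h2, ha, hc]; simp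
        | true =>
          refine ⟨false, Or.inl ⟨i, fun b => ?_⟩⟩
          rw [h2, ha, hc]; cases b i <;> simp
      | true =>
        cases hc : D (σ i (u i)) with
        | false =>
          refine ⟨true, Or.inl ⟨i, fun b => ?_⟩⟩
          rw [h2, ha, hc]; cases b i <;> simp
        | true =>
          refine ⟨false, Or.inr (Or.inl ⟨true, fun b => ?_⟩)⟩
          rw [h2, ha, hc]; simp
    · exact ⟨false, Or.inr (Or.inr ⟨rfl, hJ⟩)⟩
  choose s hs using h1
  refine ⟨s, fun v => ?_⟩
  rcases hs v with hi | ⟨a, ha⟩ | ⟨h0, J, hJ, h⟩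
  · exact Or.inl hi
  · refine Or.inr ⟨∅, by simp, Or.inr ?_⟩
    cases a with
    | true => exact Or.inl fun b => by rw [ha]; simp
    | false => exact Or.inr fun b => by rw [ha]; simp
  · set φ : C.Node × Bool → C.Node × Bool := fun p => (p.1, xor (s p.1) p.2) with hφ
    have hφi : Function.Injective φ := by
      rintro ⟨a, b⟩ ⟨a', b'⟩ h
      simp only [hφ, Prod.mk.injEq] at h
      obtain ⟨rfl, h⟩ := h
      rw [(xor_eq_xor _ _ _).1 h]
    have hiff : ∀ (p : C.Node × Bool) (b : Fin n → Bool),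
        (xor (s (φ p).1) (C.val (φ p).1 (full σ u b)) = (φ p).2) ↔
          C.val p.1 (full σ u b) = p.2 := fun p b => xor_eq_xor _ _ _
    have hval : ∀ b, xor (s v) (C.val v (full σ u b)) = C.val v (full σ u b) := by
      intro b; rw [h0]; simp
    refine Or.inr ⟨J.image φ, ?_, ?_⟩
    · intro p hp
      obtain ⟨p', hp', rfl⟩ := mem_image.1 hp
      exact hJ p' hp'
    · rcases h with ⟨hw, F, hF⟩ | h | h
      · refine Or.inl ⟨card_image_le.trans hw, fun X => F (J.filter fun p => φ p ∈ X), fun b => ?_⟩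
        rw [hval, hF]
        congr 1
        refine filter_congr fun p hp => ?_
        rw [mem_filter, hiff]
        exact ⟨fun h => ⟨mem_image_of_mem _ hp, h⟩, fun h => h.2⟩
      · refine Or.inr (Or.inl fun b => ?_)
        rw [hval, h]
        refine decide_eq_decide.2 ⟨fun h p hp => ?_, fun h p hp => ?_⟩
        · obtain ⟨p', hp', rfl⟩ := mem_image.1 hp
          exact (hiff p' b).2 (h p' hp')
        · exact (hiff p b).1 (h _ (mem_image_of_mem _ hp))
      · refine Or.inr (Or.inr fun b => ?_)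
        rw [hval, h]
        refine decide_eq_decide.2 ⟨?_, ?_⟩
        · rintro ⟨p, hp, h⟩
          exact ⟨φ p, mem_image_of_mem _ hp, (hiff p b).2 h⟩
        · rintro ⟨p, hp, h⟩
          obtain ⟨p', hp', rfl⟩ := mem_image.1 hp
          exact ⟨p', hp', (hiff p' b).1 h⟩

/-- the contradiction, for functions of low degree -/
lemma contraLD {K : Type} [Field K] {k D : ℕ} (σ : Fin k → Fin n → Equiv.Perm L)
    (G : (Fin n → L) → K) (A : Finset (Fin n → L)) (hA : ∀ x, x ∈ A ↔ G x ≠ 0)
    (hfree : ∀ (x : Fin n → L) (W : Finset (Fin n)), (∀ j, mix (σ j) W x ∈ A) → W = ∅)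
    (E : Finset (Fin n)) (hE : k * D < E.card) (x : Fin n → L) (hx : x ∈ A)
    (h : ∀ j, (fun z => G (sh (σ j) E x z)) ∈ LD (Fin n) K D) : False := by
  set g : Fin k → (Fin n → Bool) → K := fun j z => G (sh (σ j) E x z) with hg
  have h2 := LD.prod (univ : Finset (Fin k)) (fun _ => D) g (fun j _ => h j)
  have h3 : ∑ _j : Fin k, D = k * D := by simp
  rw [h3] at h2
  have hg' : ∀ j z, g j z ≠ 0 ↔ sh (σ j) E x z ∈ A := by
    intro j z
    rw [hA]
  have h4 := no_point E hE h2 (by
    intro W hW hne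
    rw [Finset.prod_apply]
    have h5 : ¬ ∀ j, mix (σ j) W x ∈ A := fun h => hne.ne_empty (hfree x W h)
    push Not at h5
    obtain ⟨j, hj⟩ := h5
    refine prod_eq_zero (mem_univ j) ?_
    by_contra hne'
    apply hj
    have h6 : sh (σ j) E x (fun i => decide (i ∈ W)) = mix (σ j) W x := by
      funext v
      unfold sh mix
      refine if_congr ?_ rfl rfl
      rw [decide_eq_true_eq]
      exact ⟨fun h => h.2, fun h => ⟨hW h, h⟩⟩
    rw [← h6]
    exact (hg' j _).1 hne')
  rw [Finset.prod_apply, prod_eq_zero_iff] at h4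
  obtain ⟨j, _, hj⟩ := h4
  refine (hg' j _).2 ?_ hj
  have : sh (σ j) E x (fun _ => false) = x := by
    funext v
    simp [sh]
  rw [this]
  exact hx

open Classical in
lemma weightA {K : Type} [Field K] {k T m ℓ t d : ℕ} (hw : 1 ≤ w) (hℓ : 1 ≤ ℓ) (ht : 1 ≤ t)
    (σ : Fin k → Fin n → Equiv.Perm L) (C : ACirc L w n) (hsz : Nat.card C.Node ≤ 2 ^ ℓ)
    (hdep : ∀ v, C.depth v ≤ d) (out : Fin T → C.Node)
    (P : MvPolynomial (Fin T) K) (hP : P.totalDegree ≤ m) (A : Finset (Fin n → L))
    (hA : ∀ x, x ∈ A ↔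
      MvPolynomial.eval (fun i => if C.val (out i) x = true then (1 : K) else 0) P ≠ 0)
    (hfree : ∀ (x : Fin n → L) (W : Finset (Fin n)), (∀ j, mix (σ j) W x ∈ A) → W = ∅)
    {q : ℝ} (h0 : 0 ≤ q) (h1 : q ≤ 1 / 3) (h2 : 96 * (w * ℓ : ℕ) * q ≤ 1 / 2) :
    (A.card : ℝ) * Ex (wq (q ^ d)) (fun ρ : Restr (Fin n) =>
      if k * (d * t + m * ℓ) < (st ρ).card then (1 : ℝ) else 0) ≤
      k * ((Fintype.card L : ℝ) ^ n * (2 ^ (d * t) * (2 * (96 * (w * ℓ : ℕ) * q) ^ (t + 1)))) := by
  choose s hs using fun (j : Fin k) (u : Fin n → L) => bool_rule C (σ j) u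
  set g : Fin k → (Fin n → L) → C.Node → (Fin n → Bool) → Bool :=
    fun j u v b => xor (s j u v) (C.val v (full (σ j) u b)) with hg
  set Q : Fin k → (Fin n → L) → Restr (Fin n) → Prop := fun j u ρ' =>
    ∀ v, C.depth v ≤ d → HasDT ℓ (rs (g j u v) ρ') with hQ
  have hlev : ∀ j u, Ex (wq (q ^ d)) (fun ρ : Restr (Fin n) =>
      if ¬ Dt (Q j u) (d * t) ρ then (1 : ℝ) else 0) ≤
      2 ^ (d * t) * (2 * (96 * (w * ℓ : ℕ) * q) ^ (t + 1)) := by
    intro j u
    let B : Circuit w n :=
      { Node := C.Node, finite := C.finite, val := g j u, depth := C.depth, leak := ∅,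
        rule := fun v => Or.inr (hs j u v) }
    exact levels B (g j u) (fun v => Or.inr (hs j u v)) hℓ hw hsz h0 h1 h2 ht d
  have hpoly : ∀ (j : Fin k) (ρ : Restr (Fin n)) (x : Fin n → L),
      Dt (Q j ((be (σ j) ρ).symm x)) (d * t) ρ →
      (fun z => MvPolynomial.eval (fun i => if C.val (out i) (sh (σ j) (st ρ) x z) = true then
        (1 : K) else 0) P) ∈ LD (Fin n) K (d * t + m * ℓ) := by
    intro j ρ x hD
    set u := (be (σ j) ρ).symm x with hu
    have h3 := LD.dt (K := K) (m := m * ℓ) (fun b => MvPolynomial.eval (fun i =>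
      if C.val (out i) (full (σ j) u b) = true then (1 : K) else 0) P) (Q := Q j u) (by
        intro ρ' hρ'
        exact LD.poly P hP (fun i x => if C.val (out i) (full (σ j) u (ov ρ' x)) = true then
          (1 : K) else 0) fun i => LD.hasDT_xor (s j u (out i)) (hρ' (out i) (hdep _))) hD
    refine (congrArg (· ∈ LD (Fin n) K (d * t + m * ℓ)) (funext fun z => ?_)).mp h3
    simp only [full_ov]
    rw [hu, Equiv.apply_symm_apply]
  have key : ∀ ρ : Restr (Fin n), (A.card : ℝ) *
      (if k * (d * t + m * ℓ) < (st ρ).card then (1 : ℝ) else 0) ≤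
      ∑ j : Fin k, ∑ u : Fin n → L, (if ¬ Dt (Q j u) (d * t) ρ then (1 : ℝ) else 0) := by
    intro ρ
    have hnn : ∀ (j : Fin k) (u : Fin n → L),
        (0 : ℝ) ≤ (if ¬ Dt (Q j u) (d * t) ρ then (1 : ℝ) else 0) := by
      intro j u
      split_ifs <;> norm_num
    split_ifs with h
    · rw [mul_one]
      have h4 : ∀ j, ∑ u : Fin n → L, (if ¬ Dt (Q j u) (d * t) ρ then (1 : ℝ) else 0) =
          ∑ x : Fin n → L, (if ¬ Dt (Q j ((be (σ j) ρ).symm x)) (d * t) ρ then (1 : ℝ)
            else 0) := by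
        intro j
        refine Fintype.sum_equiv (be (σ j) ρ) _ _ (fun u => ?_)
        rw [Equiv.symm_apply_apply]
      simp only [h4]
      rw [sum_comm]
      calc (A.card : ℝ) = ∑ x ∈ A, (1 : ℝ) := by simp
        _ ≤ ∑ x ∈ A, ∑ j : Fin k,
          (if ¬ Dt (Q j ((be (σ j) ρ).symm x)) (d * t) ρ then (1 : ℝ) else 0) := by
          refine sum_le_sum fun x hx => ?_
          obtain ⟨j, hj⟩ : ∃ j, ¬ Dt (Q j ((be (σ j) ρ).symm x)) (d * t) ρ := by
            by_contra hcon
            push Not at hcon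
            exact contraLD σ (fun x => MvPolynomial.eval (fun i =>
              if C.val (out i) x = true then (1 : K) else 0) P) A hA hfree (st ρ) h x hx
              fun j => hpoly j ρ x (hcon j)
          have h5 := single_le_sum (f := fun j : Fin k =>
            (if ¬ Dt (Q j ((be (σ j) ρ).symm x)) (d * t) ρ then (1 : ℝ) else 0))
            (fun j _ => hnn j _) (mem_univ j)
          simp only [hj, not_false_eq_true, if_true] at h5
          exact h5
        _ ≤ ∑ x : Fin n → L, ∑ j : Fin k,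
          (if ¬ Dt (Q j ((be (σ j) ρ).symm x)) (d * t) ρ then (1 : ℝ) else 0) :=
          sum_le_sum_of_subset_of_nonneg (subset_univ _) fun x _ _ =>
            sum_nonneg fun j _ => hnn j _
    · rw [mul_zero]
      exact sum_nonneg fun j _ => sum_nonneg fun u _ => hnn j u
  have hqd0 : 0 ≤ q ^ d := pow_nonneg h0 d
  have hqd1 : q ^ d ≤ 1 := pow_le_one₀ h0 (by linarith)
  rw [← Ex_smul]
  refine (Ex_mono (wq_nonneg hqd0 hqd1) key).trans ?_
  rw [Ex_sum]
  have h7 : ∀ j : Fin k, Ex (wq (q ^ d)) (fun ρ : Restr (Fin n) => ∑ u : Fin n → L,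
        (if ¬ Dt (Q j u) (d * t) ρ then (1 : ℝ) else 0)) ≤
      (Fintype.card L : ℝ) ^ n * (2 ^ (d * t) * (2 * (96 * (w * ℓ : ℕ) * q) ^ (t + 1))) := by
    intro j
    rw [Ex_sum]
    refine (sum_le_sum fun u _ => hlev j u).trans (le_of_eq ?_)
    rw [sum_const, card_univ, nsmul_eq_mul, Fintype.card_fun, Fintype.card_fin]
    push_cast
    rfl
  refine (sum_le_sum fun j _ => h7 j).trans (le_of_eq ?_)
  rw [sum_const, card_univ, nsmul_eq_mul, Fintype.card_fin]

open Classical in
/-- **Sets defined by circuits of constant depth which contain no pattern are small.** -/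
theorem mainA {K : Type} [Field K] {k T m ℓ d : ℕ} (hk : 1 ≤ k) (hd : 1 ≤ d) (hw : 1 ≤ w)
    (hℓ : 1 ≤ ℓ) (σ : Fin k → Fin n → Equiv.Perm L) (C : ACirc L w n)
    (hsz : Nat.card C.Node ≤ 2 ^ ℓ) (hdep : ∀ v, C.depth v ≤ d) (out : Fin T → C.Node)
    (P : MvPolynomial (Fin T) K) (hP : P.totalDegree ≤ m) (A : Finset (Fin n → L))
    (hA : ∀ x, x ∈ A ↔
      MvPolynomial.eval (fun i => if C.val (out i) x = true then (1 : K) else 0) P ≠ 0)
    (hfree : ∀ (x : Fin n → L) (W : Finset (Fin n)), (∀ j, mix (σ j) W x ∈ A) → W = ∅) :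
    (A.card : ℝ) ≤ (k + 2) * (Fintype.card L : ℝ) ^ n *
      Real.exp (k * m * ℓ - n / (4 * k * d * (2 ^ (d + 9) * (w * ℓ)) ^ d)) := by
  have hkr : (1 : ℝ) ≤ k := by exact_mod_cast hk
  have hdr : (1 : ℝ) ≤ d := by exact_mod_cast hd
  have hwℓ : 1 ≤ w * ℓ := Nat.mul_pos hw hℓ
  have hwℓr : (1 : ℝ) ≤ ((w * ℓ : ℕ) : ℝ) := by exact_mod_cast hwℓ
  set R : ℝ := 2 ^ (d + 9) * ((w * ℓ : ℕ) : ℝ) with hR
  have hR1 : 1 ≤ R := by
    rw [hR]
    have : (1 : ℝ) ≤ 2 ^ (d + 9) := one_le_pow₀ (by norm_num)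
    nlinarith
  have hR0 : 0 < R := by linarith
  set q : ℝ := 1 / R with hq
  have hnum : 0 ≤ q ∧ q ≤ 1 / 3 ∧ 96 * ((w * ℓ : ℕ) : ℝ) * q ≤ 1 / 2 ∧ ∀ t : ℕ,
      (2 : ℝ) ^ (d * t) * (2 * (96 * ((w * ℓ : ℕ) : ℝ) * q) ^ (t + 1)) ≤ (1 / 4) ^ (t + 1) := by
    have h2 : (0 : ℝ) < 2 ^ d := by positivity
    have h3 : (1 : ℝ) ≤ 2 ^ d := one_le_pow₀ (by norm_num)
    have hx : 96 * ((w * ℓ : ℕ) : ℝ) * q = 96 / (2 ^ d * 512) := by
      rw [hq, hR, pow_add]; field_simp; norm_num
    have hx2 : 96 * ((w * ℓ : ℕ) : ℝ) * q ≤ (1 / 2) ^ (d + 2) := by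
      rw [hx, pow_add, one_div, inv_pow, div_le_iff₀ (by positivity)]
      have : ((2 : ℝ) ^ d)⁻¹ * 2⁻¹ ^ 2 * (2 ^ d * 512) = 128 := by field_simp; norm_num
      rw [this]; norm_num
    have hx0 : 0 ≤ 96 * ((w * ℓ : ℕ) : ℝ) * q := by rw [hx]; positivity
    refine ⟨by rw [hq]; positivity, ?_, ?_, ?_⟩
    · rw [hq, one_div, one_div]
      apply inv_anti₀ (by norm_num)
      rw [hR, pow_add]
      nlinarith
    · refine hx2.trans ?_
      calc ((1 : ℝ) / 2) ^ (d + 2) ≤ (1 / 2) ^ 1 :=
            pow_le_pow_of_le_one (by norm_num) (by norm_num) (by omega)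
        _ = 1 / 2 := pow_one _
    · intro t
      calc (2 : ℝ) ^ (d * t) * (2 * (96 * ((w * ℓ : ℕ) : ℝ) * q) ^ (t + 1))
          ≤ 2 ^ (d * t) * (2 * ((1 / 2) ^ (d + 2)) ^ (t + 1)) := by
            refine mul_le_mul_of_nonneg_left (mul_le_mul_of_nonneg_left
              (pow_le_pow_left₀ hx0 hx2 _) (by norm_num)) (by positivity)
        _ = 2 ^ (d * t + 1) * (1 / 2) ^ ((d * t + 1) + (2 * t + d + 1)) := by
            rw [← pow_mul, pow_succ (2 : ℝ) (d * t)]
            rw [show (d + 2) * (t + 1) = d * t + 1 + (2 * t + d + 1) by ring]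
            ring
        _ = (1 / 2) ^ (2 * t + d + 1) := by
            rw [pow_add (1 / 2 : ℝ), ← mul_assoc, ← mul_pow]
            norm_num
        _ ≤ (1 / 2) ^ (2 * (t + 1)) :=
            pow_le_pow_of_le_one (by norm_num) (by norm_num) (by omega)
        _ = (1 / 4) ^ (t + 1) := by rw [pow_mul]; norm_num
  obtain ⟨hq0, hq1, hq2, hq3⟩ := hnum
  set Qd : ℝ := q ^ d with hQd
  have hQd0 : 0 < Qd := by rw [hQd, hq]; positivity
  have hQd1 : Qd ≤ 1 / 3 := by
    calc Qd ≤ q ^ 1 := pow_le_pow_of_le_one hq0 (by linarith) hd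
      _ ≤ 1 / 3 := by rw [pow_one]; exact hq1
  have hQdR : Qd = 1 / R ^ d := by rw [hQd, hq, one_div, inv_pow, one_div]
  set Y : ℝ := n / (4 * k * d * R ^ d) with hY
  have hYQ : Y = Qd * n / (4 * k * d) := by
    rw [hY, hQdR]
    field_simp
  have hY0 : 0 ≤ Y := by rw [hY]; positivity
  set Z : ℝ := (Fintype.card L : ℝ) ^ n with hZ
  have hZ0 : 0 ≤ Z := by rw [hZ]; positivity
  have hAZ : (A.card : ℝ) ≤ Z := by
    have := card_le_univ A
    rw [Fintype.card_fun, Fintype.card_fin] at this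
    rw [hZ]
    exact_mod_cast this
  have hgoal : (4 * (k : ℝ) * d * (2 ^ (d + 9) * (w * ℓ)) ^ d) = 4 * k * d * R ^ d := by
    rw [hR]
    push_cast
    ring
  rw [hgoal]
  rw [← hY]
  have hE0 : (0 : ℝ) ≤ k * m * ℓ := by positivity
  rcases lt_or_ge Y 1 with hYlt | hYge
  · have h1 : (1 : ℝ) ≤ (k + 2) * Real.exp (k * m * ℓ - Y) := by
      have h2 : Real.exp (-1) ≤ Real.exp (k * m * ℓ - Y) := by
        apply Real.exp_le_exp.2
        linarith
      have h5 : (0.36 : ℝ) ≤ Real.exp (-1) := by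
        have := Real.exp_neg_one_gt_d9
        linarith
      nlinarith
    calc (A.card : ℝ) ≤ Z * 1 := by rw [mul_one]; exact hAZ
      _ ≤ Z * ((k + 2) * Real.exp (k * m * ℓ - Y)) := mul_le_mul_of_nonneg_left h1 hZ0
      _ = _ := by ring
  · set t : ℕ := ⌊Y⌋₊ with ht
    have ht1 : 1 ≤ t := Nat.le_floor (by exact_mod_cast hYge)
    have htY : (t : ℝ) ≤ Y := Nat.floor_le hY0
    have htY' : Y < t + 1 := Nat.lt_floor_add_one Y
    have h2 := weightA (K := K) (k := k) (T := T) (m := m) (ℓ := ℓ) (t := t) (d := d) hw hℓ ht1 σ C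
      hsz hdep out P hP A hA hfree hq0 hq1 hq2
    rw [← hQd, ← hZ] at h2
    set s : ℕ := k * (d * t + m * ℓ) with hs
    have h3 := few (n := n) s hQd0.le hQd1
    have h4 : Ex (wq Qd) (fun ρ : Restr (Fin n) => if s < (st ρ).card then (1 : ℝ) else 0) =
        1 - Ex (wq Qd) (fun ρ : Restr (Fin n) => if (st ρ).card ≤ s then (1 : ℝ) else 0) := by
      have h5 : Ex (wq Qd) (fun ρ : Restr (Fin n) => (if s < (st ρ).card then (1 : ℝ) else 0) +
          (if (st ρ).card ≤ s then (1 : ℝ) else 0)) = 1 := by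
        have : (fun ρ : Restr (Fin n) => (if s < (st ρ).card then (1 : ℝ) else 0) +
          (if (st ρ).card ≤ s then (1 : ℝ) else 0)) = fun _ => 1 := by
          funext ρ
          by_cases h : s < (st ρ).card
          · rw [if_pos h, if_neg (by omega), add_zero]
          · rw [if_neg h, if_pos (by omega), zero_add]
        rw [this]
        exact Ex_const (wq_sum Qd) 1
      rw [Ex_add] at h5
      linarith
    have h3' : (A.card : ℝ) * Ex (wq Qd) (fun ρ : Restr (Fin n) =>
        if (st ρ).card ≤ s then (1 : ℝ) else 0) ≤ Z * (2 ^ s * (1 - Qd / 2) ^ n) := by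
      refine mul_le_mul hAZ h3 (Ex_nonneg (wq_nonneg hQd0.le (by linarith)) fun ρ => ?_) hZ0
      split_ifs <;> norm_num
    have h2' : (A.card : ℝ) * (1 - Ex (wq Qd) (fun ρ : Restr (Fin n) =>
        if (st ρ).card ≤ s then (1 : ℝ) else 0)) ≤ k * (Z * (1 / 4) ^ (t + 1)) := by
      rw [← h4]
      refine h2.trans ?_
      exact mul_le_mul_of_nonneg_left (mul_le_mul_of_nonneg_left (hq3 t) hZ0) (by linarith)
    have h6 : (A.card : ℝ) ≤ Z * (2 ^ s * (1 - Qd / 2) ^ n) + k * (Z * (1 / 4) ^ (t + 1)) := by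
      rw [mul_sub, mul_one] at h2'
      linarith
    have h7 : ((1 : ℝ) / 4) ^ (t + 1) ≤ Real.exp (k * m * ℓ - Y) := by
      have h8 : ((1 : ℝ) / 4) ≤ Real.exp (-1) := by
        have := Real.exp_neg_one_gt_d9
        linarith
      calc ((1 : ℝ) / 4) ^ (t + 1) ≤ (Real.exp (-1)) ^ (t + 1) :=
            pow_le_pow_left₀ (by norm_num) h8 _
        _ = Real.exp (-(t + 1 : ℕ)) := by
            rw [← Real.exp_nat_mul]; congr 1; push_cast; ring
        _ ≤ Real.exp (k * m * ℓ - Y) := by
            apply Real.exp_le_exp.2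
            push_cast
            linarith
    have h9 : (2 : ℝ) ^ s * (1 - Qd / 2) ^ n ≤ Real.exp (k * m * ℓ - Y) := by
      have h10 : (2 : ℝ) ^ s ≤ Real.exp s := by
        calc (2 : ℝ) ^ s ≤ (Real.exp 1) ^ s := by
              refine pow_le_pow_left₀ (by norm_num) ?_ _
              have := Real.add_one_le_exp (1 : ℝ)
              linarith
          _ = Real.exp s := by rw [← Real.exp_nat_mul, mul_one]
      have h11 : (1 - Qd / 2) ^ n ≤ Real.exp (-(Qd * n / 2)) := by
        calc (1 - Qd / 2) ^ n ≤ (Real.exp (-(Qd / 2))) ^ n := by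
              refine pow_le_pow_left₀ (by linarith) ?_ _
              have := Real.add_one_le_exp (-(Qd / 2))
              linarith
          _ = Real.exp (-(Qd * n / 2)) := by
              rw [← Real.exp_nat_mul]; congr 1; ring
      calc (2 : ℝ) ^ s * (1 - Qd / 2) ^ n ≤ Real.exp s * Real.exp (-(Qd * n / 2)) := by
            refine mul_le_mul h10 h11 (pow_nonneg (by linarith) _) (Real.exp_nonneg _)
        _ = Real.exp (s - Qd * n / 2) := by rw [← Real.exp_add]; rfl
        _ ≤ Real.exp (k * m * ℓ - Y) := by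
            apply Real.exp_le_exp.2
            have hkd : (0 : ℝ) < 4 * k * d := by positivity
            have h12 : (k : ℝ) * d * Y = Qd * n / 4 := by
              rw [hYQ]
              field_simp
            have h13 : (s : ℝ) = k * d * t + k * m * ℓ := by
              rw [hs]; push_cast; ring
            have h14 : (k : ℝ) * d * t ≤ k * d * Y :=
              mul_le_mul_of_nonneg_left htY (by positivity)
            have h15 : Y ≤ k * d * Y := by
              have : (1 : ℝ) ≤ k * d := by nlinarith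
              nlinarith
            rw [h13]
            linarith
    calc (A.card : ℝ) ≤ Z * (2 ^ s * (1 - Qd / 2) ^ n) + k * (Z * (1 / 4) ^ (t + 1)) := h6
      _ ≤ Z * Real.exp (k * m * ℓ - Y) + k * (Z * Real.exp (k * m * ℓ - Y)) :=
          add_le_add (mul_le_mul_of_nonneg_left h9 hZ0)
            (mul_le_mul_of_nonneg_left (mul_le_mul_of_nonneg_left h7 hZ0) (by linarith))
      _ ≤ (k + 2) * Z * Real.exp (k * m * ℓ - Y) := by
          have : 0 ≤ Z * Real.exp (k * m * ℓ - Y) := mul_nonneg hZ0 (Real.exp_nonneg _)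
          nlinarith

end B

end Pool.Agent.T6.H6.LC
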