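import Mathlib

/-!
# Functions of low degree on the cube over an arbitrary field
-/

set_option autoImplicit false

namespace Pool.Agent.T6.H6.LC

open Finset

set_option linter.unusedSectionVars false

variable {I : Type} [DecidableEq I] {K : Type} [Field K]

/-- the monomial of `S` on the cube -/
def mon (K : Type) [Field K] (S : Finset I) : (I → Bool) → K :=
  fun x => if ∀ i ∈ S, x i = true then 1 else 0

variable (I K) in
/-- the functions of degree at most `d` -/
def LD (d : ℕ) : Submodule K ((I → Bool) → K) :=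
  Submodule.span K {g | ∃ S : Finset I, S.card ≤ d ∧ g = mon K S}

lemma mon_mul (S T : Finset I) : mon K S * mon K T = mon K (S ∪ T) := by
  funext x
  have h3 : (∀ i ∈ S ∪ T, x i = true) ↔ (∀ i ∈ S, x i = true) ∧ (∀ i ∈ T, x i = true) := by
    constructor
    · intro h
      exact ⟨fun i hi => h i (mem_union_left _ hi), fun i hi => h i (mem_union_right _ hi)⟩
    · rintro ⟨h, h'⟩ i hi
      exact (mem_union.1 hi).elim (h i) (h' i)
  show mon K S x * mon K T x = mon K (S ∪ T) x
  unfold mon
  rw [if_congr h3 rfl rfl]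
  by_cases h1 : ∀ i ∈ S, x i = true
  · by_cases h2 : ∀ i ∈ T, x i = true
    · rw [if_pos h1, if_pos h2, if_pos (And.intro h1 h2), one_mul]
    · rw [if_neg h2, mul_zero]
      exact (if_neg (fun h : (∀ i ∈ S, x i = true) ∧ (∀ i ∈ T, x i = true) => h2 h.2)).symm
  · rw [if_neg h1, zero_mul]
    exact (if_neg (fun h : (∀ i ∈ S, x i = true) ∧ (∀ i ∈ T, x i = true) => h1 h.1)).symm

lemma LD.mul {a b : ℕ} {f g : (I → Bool) → K} (hf : f ∈ LD I K a) (hg : g ∈ LD I K b) :
    f * g ∈ LD I K (a + b) := by
  have h := Submodule.mul_mem_mul hf hg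
  unfold LD at h
  rw [Submodule.span_mul_span] at h
  refine Submodule.span_le.2 ?_ h
  rintro _ ⟨_, ⟨S, hS, rfl⟩, _, ⟨T, hT, rfl⟩, rfl⟩
  exact Submodule.subset_span ⟨S ∪ T, (card_union_le _ _).trans (by omega), mon_mul S T⟩

lemma LD.mono {a b : ℕ} (h : a ≤ b) : LD I K a ≤ LD I K b := by
  refine Submodule.span_mono ?_
  rintro _ ⟨S, hS, rfl⟩
  exact ⟨S, hS.trans h, rfl⟩

lemma LD.const (c : K) (d : ℕ) : (fun _ : I → Bool => c) ∈ LD I K d := by
  have h : (fun _ : I → Bool => c) = c • mon K (∅ : Finset I) := by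
    funext x
    simp [mon]
  rw [h]
  exact Submodule.smul_mem _ _ (Submodule.subset_span ⟨∅, by simp, rfl⟩)

lemma LD.prod {ι : Type} (s : Finset ι) (d : ι → ℕ) (f : ι → (I → Bool) → K)
    (h : ∀ i ∈ s, f i ∈ LD I K (d i)) : ∏ i ∈ s, f i ∈ LD I K (∑ i ∈ s, d i) := by
  classical
  induction s using Finset.induction_on with
  | empty =>
    rw [prod_empty, sum_empty]
    exact LD.const 1 0
  | insert i s hi ih =>
    rw [prod_insert hi, sum_insert hi]
    exact LD.mul (h i (mem_insert_self _ _)) (ih fun j hj => h j (mem_insert_of_mem hj))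

lemma LD.pow {d : ℕ} {f : (I → Bool) → K} (h : f ∈ LD I K d) (e : ℕ) : f ^ e ∈ LD I K (e * d) := by
  have := LD.prod (range e) (fun _ => d) (fun _ => f) (fun _ _ => h)
  simpa using this

/-- the coordinate function -/
lemma LD.coord (i : I) : (fun x : I → Bool => if x i = true then (1 : K) else 0) ∈ LD I K 1 := by
  refine Submodule.subset_span ⟨{i}, by simp, ?_⟩
  funext x
  simp [mon]

lemma LD.coord' (i : I) : (fun x : I → Bool => if x i = true then (0 : K) else 1) ∈ LD I K 1 := by
  have h : (fun x : I → Bool => if x i = true then (0 : K) else 1) =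
      (fun _ => (1 : K)) - fun x : I → Bool => if x i = true then (1 : K) else 0 := by
    funext x
    simp only [Pi.sub_apply]
    split_ifs <;> simp
  rw [h]
  exact Submodule.sub_mem _ (LD.const 1 1) (LD.coord i)

/-- functions of degree smaller than `|E|` are orthogonal to the alternating sum over `E` -/
lemma phi_mon (E S : Finset I) (h : S.card < E.card) :
    ∑ W ∈ E.powerset, (-1 : K) ^ W.card * mon K S (fun i => decide (i ∈ W)) = 0 := by
  obtain ⟨i, hiE, hiS⟩ : ∃ i ∈ E, i ∉ S := by
    by_contra hcon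
    push Not at hcon
    exact absurd (card_le_card hcon) (by omega)
  obtain ⟨E', hE', rfl⟩ : ∃ E' : Finset I, i ∉ E' ∧ insert i E' = E :=
    ⟨E.erase i, notMem_erase _ _, insert_erase hiE⟩
  rw [sum_powerset_insert hE', ← sum_add_distrib]
  refine sum_eq_zero fun W hW => ?_
  have hiW : i ∉ W := fun h => hE' (mem_powerset.1 hW h)
  rw [card_insert_of_notMem hiW]
  have : mon K S (fun j => decide (j ∈ insert i W)) = mon K S (fun j => decide (j ∈ W)) := by
    unfold mon
    refine if_congr ?_ rfl rfl
    refine forall₂_congr fun j hj => ?_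
    have : j ≠ i := fun h => hiS (h ▸ hj)
    simp [this]
  rw [this]
  ring

lemma phi_zero (E : Finset I) {d : ℕ} (hd : d < E.card) {g : (I → Bool) → K}
    (hg : g ∈ LD I K d) :
    ∑ W ∈ E.powerset, (-1 : K) ^ W.card * g (fun i => decide (i ∈ W)) = 0 := by
  unfold LD at hg
  induction hg using Submodule.span_induction with
  | mem x hx =>
    obtain ⟨S, hS, rfl⟩ := hx
    exact phi_mon E S (by omega)
  | zero => simp
  | add x y _ _ hx hy =>
    simp only [Pi.add_apply, mul_add, sum_add_distrib, hx, hy, add_zero]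
  | smul a x _ hx =>
    simp only [Pi.smul_apply, smul_eq_mul]
    have : ∀ W ∈ E.powerset, (-1 : K) ^ W.card * (a * x (fun i => decide (i ∈ W))) =
        a * ((-1 : K) ^ W.card * x (fun i => decide (i ∈ W))) := fun W _ => by ring
    rw [sum_congr rfl this, ← mul_sum, hx, mul_zero]

/-- a function of degree smaller than `|E|` which vanishes on all nonempty subsets of `E` vanishes
on the empty set -/
lemma no_point (E : Finset I) {d : ℕ} (hd : d < E.card) {g : (I → Bool) → K}
    (hg : g ∈ LD I K d)
    (h0 : ∀ W ⊆ E, W.Nonempty → g (fun i => decide (i ∈ W)) = 0) :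
    g (fun _ => false) = 0 := by
  have h := phi_zero E hd hg
  rw [sum_eq_single ∅] at h
  · simpa using h
  · intro W hW hne
    rw [h0 W (mem_powerset.1 hW) (nonempty_iff_ne_empty.2 hne), mul_zero]
  · intro h
    exact absurd (empty_mem_powerset E) h

open MvPolynomial in
/-- polynomials of functions of low degree -/
lemma LD.poly {T m t : ℕ} (P : MvPolynomial (Fin T) K) (hP : P.totalDegree ≤ m)
    (y : Fin T → (I → Bool) → K) (hy : ∀ i, y i ∈ LD I K t) :
    (fun x => MvPolynomial.eval (fun i => y i x) P) ∈ LD I K (m * t) := by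
  have h : (fun x => MvPolynomial.eval (fun i => y i x) P) =
      ∑ s ∈ P.support, P.coeff s • ∏ i : Fin T, y i ^ s i := by
    funext x
    rw [MvPolynomial.eval_eq', Finset.sum_apply]
    refine sum_congr rfl fun s _ => ?_
    simp [Finset.prod_apply]
  rw [h]
  refine Submodule.sum_mem _ fun s hs => Submodule.smul_mem _ _ ?_
  have h1 := LD.prod (univ : Finset (Fin T)) (fun i => s i * t) (fun i => y i ^ s i)
    (fun i _ => LD.pow (hy i) (s i))
  refine LD.mono ?_ h1
  rw [← sum_mul]
  refine Nat.mul_le_mul_right _ ?_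
  refine le_trans ?_ ((MvPolynomial.le_totalDegree hs).trans hP)
  rw [Finsupp.sum_fintype _ _ (fun _ => rfl)]

end Pool.Agent.T6.H6.LC
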