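import Pool.Agent.H676.DT
import Pool.Agent.T6.H6.LC.Deg

/-!
# Patterns in sets defined by local constraints

Let `σ j v` be permutations of a finite alphabet `L`, `j < k`, `v < n`. A set `A ⊆ L^n` without a
configuration `mix (σ j) W x`, `j < k`, `W ≠ ∅`, is small if it is defined by the values of a
polynomial of low degree at the indicator functions of sets which are the solution sets of systems
of constraints of bounded width (and any number).
-/

set_option autoImplicit false

namespace Pool.Agent.T6.H6.LC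

open Finset H568R2 Pool.Agent.H676

set_option linter.unusedSectionVars false

section A
variable {I : Type} [Fintype I] [DecidableEq I] {K : Type} [Field K]

/-- functions with decision trees of small depth have small degree -/
lemma LD.dtr {t : ℕ} : ∀ {f : (I → Bool) → Bool}, DTr t f →
    (fun x => if f x = true then (1 : K) else 0) ∈ LD I K t := by
  induction t with
  | zero =>
    rintro f ⟨c, h⟩
    have : (fun x => if f x = true then (1 : K) else 0) =
        fun _ => (if c = true then (1 : K) else 0) := by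
      funext x; rw [h]
    rw [this]
    exact LD.const _ _
  | succ t ih =>
    intro f h
    rcases h with ⟨c, h⟩ | ⟨i, h⟩
    · have : (fun x => if f x = true then (1 : K) else 0) =
          fun _ => (if c = true then (1 : K) else 0) := by
        funext x; rw [h]
      rw [this]
      exact LD.const _ _
    · have h1 := Submodule.add_mem _ (LD.mul (LD.coord (K := K) i) (ih (h true)))
        (LD.mul (LD.coord' (K := K) i) (ih (h false)))
      rw [add_comm 1 t] at h1
      refine (congrArg (· ∈ LD I K (t + 1)) (funext fun x => ?_)).mp h1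
      simp only [Pi.add_apply, Pi.mul_apply]
      cases hxi : x i
      · have : Function.update x i false = x := by rw [← hxi]; exact Function.update_eq_self i x
        simp [this]
      · have : Function.update x i true = x := by rw [← hxi]; exact Function.update_eq_self i x
        simp [this]

end A

section B
variable {n : ℕ} {L : Type} [Fintype L] [DecidableEq L]

/-- `F` is the set of the solutions of a system of constraints each of which involves at most `w`
coordinates -/
def Local (w : ℕ) (F : Set (Fin n → L)) : Prop :=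
  ∀ x, x ∉ F → ∃ S : Finset (Fin n), S.card ≤ w ∧ ∀ y ∈ F, ∃ i ∈ S, y i ≠ x i

/-- `x` with `σ` applied at the coordinates in `W` -/
def mix (σ : Fin n → Equiv.Perm L) (W : Finset (Fin n)) (x : Fin n → L) : Fin n → L :=
  fun v => if v ∈ W then σ v (x v) else x v

/-- `x` with `σ` applied at the coordinates of `E` which are switched on by `z` -/
def sh (σ : Fin n → Equiv.Perm L) (E : Finset (Fin n)) (x : Fin n → L) (z : Fin n → Bool) :
    Fin n → L :=
  fun v => if v ∈ E ∧ z v = true then σ v (x v) else x v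

/-- `u` with `σ` applied at the coordinates which are switched on by `b` -/
def full (σ : Fin n → Equiv.Perm L) (u : Fin n → L) (b : Fin n → Bool) : Fin n → L :=
  fun v => if b v = true then σ v (u v) else u v

/-- the stars of a restriction -/
def st (ρ : Restr (Fin n)) : Finset (Fin n) := univ.filter fun v => ρ v = none

/-- the base point -/
def be (σ : Fin n → Equiv.Perm L) (ρ : Restr (Fin n)) : (Fin n → L) ≃ (Fin n → L) :=
  Equiv.piCongrRight fun v => if ρ v = some true then σ v else Equiv.refl L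

lemma full_ov (σ : Fin n → Equiv.Perm L) (ρ : Restr (Fin n)) (u : Fin n → L) (z : Fin n → Bool) :
    full σ u (ov ρ z) = sh σ (st ρ) (be σ ρ u) z := by
  funext v
  unfold full sh ov st be
  simp only [mem_filter, mem_univ, true_and, Equiv.piCongrRight_apply, Pi.map_apply]
  cases h : ρ v with
  | none => simp
  | some c => cases c <;> simp

open Classical in
lemma Local.cert {w : ℕ} {F : Set (Fin n → L)} (hF : Local w F) (σ : Fin n → Equiv.Perm L)
    (u : Fin n → L) : Cert w false (fun b => decide (full σ u b ∈ F)) := by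
  intro b hb
  have hb' : full σ u b ∉ F := by simpa using hb
  obtain ⟨S, hS, h⟩ := hF _ hb'
  refine ⟨S, hS, fun y hy => ?_⟩
  rw [decide_eq_false_iff_not]
  intro hyF
  obtain ⟨i, hi, hne⟩ := h _ hyF
  apply hne
  unfold full
  rw [hy i hi]

open Classical in
lemma contra {K : Type} [Field K] {k T m t : ℕ} (σ : Fin k → Fin n → Equiv.Perm L)
    (P : MvPolynomial (Fin T) K) (hP : P.totalDegree ≤ m) (F : Fin T → Set (Fin n → L))
    (A : Finset (Fin n → L))
    (hA : ∀ x, x ∈ A ↔ MvPolynomial.eval (fun i => if x ∈ F i then (1 : K) else 0) P ≠ 0)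
    (hfree : ∀ (x : Fin n → L) (W : Finset (Fin n)), (∀ j, mix (σ j) W x ∈ A) → W = ∅)
    (E : Finset (Fin n)) (hE : k * (m * t) < E.card) (x : Fin n → L) (hx : x ∈ A) :
    ∃ j i, ¬ DTr t (fun z => decide (sh (σ j) E x z ∈ F i)) := by
  by_contra hcon
  push Not at hcon
  set g : Fin k → (Fin n → Bool) → K := fun j z =>
    MvPolynomial.eval (fun i => if decide (sh (σ j) E x z ∈ F i) = true then (1 : K) else 0) P
    with hg
  have h1 : ∀ j, g j ∈ LD (Fin n) K (m * t) := fun j =>
    LD.poly P hP (fun i z => if decide (sh (σ j) E x z ∈ F i) = true then (1 : K) else 0)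
      (fun i => LD.dtr (hcon j i))
  have h2 := LD.prod (univ : Finset (Fin k)) (fun _ => m * t) g (fun j _ => h1 j)
  have h3 : ∑ _j : Fin k, m * t = k * (m * t) := by simp
  rw [h3] at h2
  have hg' : ∀ j z, g j z ≠ 0 ↔ sh (σ j) E x z ∈ A := by
    intro j z
    rw [hA]
    simp only [hg, decide_eq_true_eq]
  have h4 := no_point E hE h2 (by
    intro W hW hne
    rw [Finset.prod_apply]
    have h5 : ¬ ∀ j, mix (σ j) W x ∈ A := fun h => hne.ne_empty (hfree x W h)
    push Not at h5
    obtain ⟨j, hj⟩ := h5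
    refine prod_eq_zero (mem_univ j) ?_
    by_contra hne'
    apply hj
    have h6 : sh (σ j) E x (fun i => decide (i ∈ W)) = mix (σ j) W x := by
      funext v
      unfold sh mix
      refine if_congr ?_ rfl rfl
      rw [decide_eq_true_eq]
      exact ⟨fun h => h.2, fun h => ⟨hW h, h⟩⟩
    rw [← h6]
    exact (hg' j _).1 hne')
  rw [Finset.prod_apply, prod_eq_zero_iff] at h4
  obtain ⟨j, _, hj⟩ := h4
  refine (hg' j _).2 ?_ hj
  have : sh (σ j) E x (fun _ => false) = x := by
    funext v
    simp [sh]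
  rw [this]
  exact hx

open Classical in
lemma weight {K : Type} [Field K] {k T m t w : ℕ} (hw : 1 ≤ w) (σ : Fin k → Fin n → Equiv.Perm L)
    (P : MvPolynomial (Fin T) K) (hP : P.totalDegree ≤ m) (F : Fin T → Set (Fin n → L))
    (hF : ∀ i, Local w (F i)) (A : Finset (Fin n → L))
    (hA : ∀ x, x ∈ A ↔ MvPolynomial.eval (fun i => if x ∈ F i then (1 : K) else 0) P ≠ 0)
    (hfree : ∀ (x : Fin n → L) (W : Finset (Fin n)), (∀ j, mix (σ j) W x ∈ A) → W = ∅)
    {q : ℝ} (h0 : 0 ≤ q) (h1 : q ≤ 1 / 3) :
    (A.card : ℝ) * Ex (wq q) (fun ρ : Restr (Fin n) =>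
      if k * (m * t) < (st ρ).card then (1 : ℝ) else 0) ≤
      k * (T * ((Fintype.card L : ℝ) ^ n * (12 * w * q) ^ (t + 1))) := by
  have key : ∀ ρ : Restr (Fin n), (A.card : ℝ) * (if k * (m * t) < (st ρ).card then (1 : ℝ) else 0) ≤
      ∑ j : Fin k, ∑ i : Fin T, ∑ u : Fin n → L,
        (if ¬ DTr t (rs (fun b => decide (full (σ j) u b ∈ F i)) ρ) then (1 : ℝ) else 0) := by
    intro ρ
    have hnn : ∀ (j : Fin k) (i : Fin T) (u : Fin n → L),
        (0 : ℝ) ≤ (if ¬ DTr t (rs (fun b => decide (full (σ j) u b ∈ F i)) ρ) then (1 : ℝ) else 0) := by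
      intro j i u
      split_ifs <;> norm_num
    split_ifs with h
    · rw [mul_one]
      have h2 : ∀ j i, ∑ u : Fin n → L,
          (if ¬ DTr t (rs (fun b => decide (full (σ j) u b ∈ F i)) ρ) then (1 : ℝ) else 0) =
          ∑ x : Fin n → L, (if ¬ DTr t (fun z => decide (sh (σ j) (st ρ) x z ∈ F i)) then (1 : ℝ)
            else 0) := by
        intro j i
        refine Fintype.sum_equiv (be (σ j) ρ) _ _ (fun u => ?_)
        have h3 : rs (fun b => decide (full (σ j) u b ∈ F i)) ρ =
            fun z => decide (sh (σ j) (st ρ) (be (σ j) ρ u) z ∈ F i) := by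
          funext z
          show decide (full (σ j) u (ov ρ z) ∈ F i) = _
          rw [full_ov]
        rw [h3]
      simp only [h2]
      have h4 : ∑ j : Fin k, ∑ i : Fin T, ∑ x : Fin n → L,
          (if ¬ DTr t (fun z => decide (sh (σ j) (st ρ) x z ∈ F i)) then (1 : ℝ) else 0) =
          ∑ x : Fin n → L, ∑ j : Fin k, ∑ i : Fin T,
          (if ¬ DTr t (fun z => decide (sh (σ j) (st ρ) x z ∈ F i)) then (1 : ℝ) else 0) := by
        have : ∀ j : Fin k, ∑ i : Fin T, ∑ x : Fin n → L,
          (if ¬ DTr t (fun z => decide (sh (σ j) (st ρ) x z ∈ F i)) then (1 : ℝ) else 0) =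
          ∑ x : Fin n → L, ∑ i : Fin T,
          (if ¬ DTr t (fun z => decide (sh (σ j) (st ρ) x z ∈ F i)) then (1 : ℝ) else 0) :=
          fun j => sum_comm
        simp only [this]
        rw [sum_comm]
      rw [h4]
      have hnn2 : ∀ (x : Fin n → L) (j : Fin k) (i : Fin T), (0 : ℝ) ≤
          (if ¬ DTr t (fun z => decide (sh (σ j) (st ρ) x z ∈ F i)) then (1 : ℝ) else 0) := by
        intro x j i
        split_ifs <;> norm_num
      calc (A.card : ℝ) = ∑ x ∈ A, (1 : ℝ) := by simp
        _ ≤ ∑ x ∈ A, ∑ j : Fin k, ∑ i : Fin T,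
          (if ¬ DTr t (fun z => decide (sh (σ j) (st ρ) x z ∈ F i)) then (1 : ℝ) else 0) := by
          refine sum_le_sum fun x hx => ?_
          obtain ⟨j, i, hji⟩ := contra σ P hP F A hA hfree (st ρ) h x hx
          have h5 := single_le_sum (f := fun j : Fin k => ∑ i : Fin T,
            (if ¬ DTr t (fun z => decide (sh (σ j) (st ρ) x z ∈ F i)) then (1 : ℝ) else 0))
            (fun j _ => sum_nonneg fun i _ => hnn2 x j i) (mem_univ j)
          have h6 := single_le_sum (f := fun i : Fin T =>
            (if ¬ DTr t (fun z => decide (sh (σ j) (st ρ) x z ∈ F i)) then (1 : ℝ) else 0))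
            (fun i _ => hnn2 x j i) (mem_univ i)
          simp only [hji, not_false_eq_true, if_true] at h6
          exact h6.trans h5
        _ ≤ ∑ x : Fin n → L, ∑ j : Fin k, ∑ i : Fin T,
          (if ¬ DTr t (fun z => decide (sh (σ j) (st ρ) x z ∈ F i)) then (1 : ℝ) else 0) :=
          sum_le_sum_of_subset_of_nonneg (subset_univ _) fun x _ _ =>
            sum_nonneg fun j _ => sum_nonneg fun i _ => hnn2 x j i
    · rw [mul_zero]
      exact sum_nonneg fun j _ => sum_nonneg fun i _ => sum_nonneg fun u _ => hnn j i u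
  rw [← Ex_smul]
  refine (Ex_mono (wq_nonneg h0 (by linarith)) key).trans ?_
  rw [Ex_sum]
  have h7 : ∀ j : Fin k, Ex (wq q) (fun ρ : Restr (Fin n) => ∑ i : Fin T, ∑ u : Fin n → L,
        (if ¬ DTr t (rs (fun b => decide (full (σ j) u b ∈ F i)) ρ) then (1 : ℝ) else 0)) ≤
      T * ((Fintype.card L : ℝ) ^ n * (12 * w * q) ^ (t + 1)) := by
    intro j
    rw [Ex_sum]
    have h8 : ∀ i : Fin T, Ex (wq q) (fun ρ : Restr (Fin n) => ∑ u : Fin n → L,
        (if ¬ DTr t (rs (fun b => decide (full (σ j) u b ∈ F i)) ρ) then (1 : ℝ) else 0)) ≤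
        (Fintype.card L : ℝ) ^ n * (12 * w * q) ^ (t + 1) := by
      intro i
      rw [Ex_sum]
      refine (sum_le_sum fun u _ => switch hw h0 h1 ((hF i).cert (σ j) u)).trans (le_of_eq ?_)
      rw [sum_const, card_univ, nsmul_eq_mul, Fintype.card_fun, Fintype.card_fin]
      push_cast
      rfl
    refine (sum_le_sum fun i _ => h8 i).trans (le_of_eq ?_)
    rw [sum_const, card_univ, nsmul_eq_mul, Fintype.card_fin]
  refine (sum_le_sum fun j _ => h7 j).trans (le_of_eq ?_)
  rw [sum_const, card_univ, nsmul_eq_mul, Fintype.card_fin]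

open Classical in
lemma few (s : ℕ) {q : ℝ} (h0 : 0 ≤ q) (h1 : q ≤ 1 / 3) :
    Ex (wq q) (fun ρ : Restr (Fin n) => if (st ρ).card ≤ s then (1 : ℝ) else 0) ≤
      2 ^ s * (1 - q / 2) ^ n := by
  have h2 : ∀ ρ : Restr (Fin n), (if (st ρ).card ≤ s then (1 : ℝ) else 0) ≤
      2 ^ s * ∏ v, (if ρ v = none then (1 / 2 : ℝ) else 1) := by
    intro ρ
    have h3 : ∏ v, (if ρ v = none then (1 / 2 : ℝ) else 1) = (1 / 2) ^ (st ρ).card := by
      rw [prod_ite, prod_const, prod_const_one, mul_one]
      rfl
    rw [h3]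
    split_ifs with h
    · have h4 : (2 : ℝ) ^ (st ρ).card ≤ 2 ^ s := pow_le_pow_right₀ (by norm_num) h
      have h5 : (0 : ℝ) < 2 ^ (st ρ).card := by positivity
      rw [one_div, inv_pow, ← div_eq_mul_inv, le_div_iff₀ h5]
      linarith
    · positivity
  refine (Ex_mono (wq_nonneg h0 (by linarith)) h2).trans ?_
  rw [Ex_smul]
  refine mul_le_mul_of_nonneg_left (le_of_eq ?_) (by positivity)
  unfold Ex
  have h6 : ∀ ρ : Restr (Fin n), (∏ v, wq q (ρ v)) * ∏ v, (if ρ v = none then (1 / 2 : ℝ) else 1) =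
      ∏ v, (wq q (ρ v) * (if ρ v = none then (1 / 2 : ℝ) else 1)) := fun ρ =>
    prod_mul_distrib.symm
  simp only [h6]
  rw [← Fintype.piFinset_univ, ← prod_univ_sum (fun _ => univ)
    (fun (_ : Fin n) (a : Option Bool) => wq q a * (if a = none then (1 / 2 : ℝ) else 1))]
  rw [prod_const, card_univ, Fintype.card_fin]
  congr 1
  rw [Fintype.sum_option, Fintype.sum_bool]
  simp [wq]
  ring

open Classical in
/-- **Sets defined by local constraints which contain no pattern are small.** -/
theorem main {K : Type} [Field K] {k T m w : ℕ} (hk : 1 ≤ k) (hm : 1 ≤ m) (hw : 1 ≤ w)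
    (σ : Fin k → Fin n → Equiv.Perm L)
    (P : MvPolynomial (Fin T) K) (hP : P.totalDegree ≤ m) (F : Fin T → Set (Fin n → L))
    (hF : ∀ i, Local w (F i)) (A : Finset (Fin n → L))
    (hA : ∀ x, x ∈ A ↔ MvPolynomial.eval (fun i => if x ∈ F i then (1 : K) else 0) P ≠ 0)
    (hfree : ∀ (x : Fin n → L) (W : Finset (Fin n)), (∀ j, mix (σ j) W x ∈ A) → W = ∅) :
    (A.card : ℝ) ≤ (k * T + 1) * (Fintype.card L : ℝ) ^ n *
      Real.exp (-(n / (192 * w * k * m) : ℝ)) := by
  have hkr : (1 : ℝ) ≤ k := by exact_mod_cast hk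
  have hmr : (1 : ℝ) ≤ m := by exact_mod_cast hm
  have hwr : (1 : ℝ) ≤ w := by exact_mod_cast hw
  set q : ℝ := 1 / (48 * w) with hq
  have hq0 : 0 < q := by rw [hq]; positivity
  have hq1 : q ≤ 1 / 3 := by
    rw [hq, div_le_div_iff₀ (by positivity) (by norm_num)]
    linarith
  have hqw : 12 * (w : ℝ) * q = 1 / 4 := by
    rw [hq]
    field_simp
    norm_num
  set N : ℕ := 192 * w * k * m with hN
  have hNpos : 0 < N := by
    rw [hN]
    have : 0 < w * k * m := Nat.mul_pos (Nat.mul_pos (by omega) (by omega)) (by omega)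
    have h2 : 192 * w * k * m = 192 * (w * k * m) := by ring
    omega
  set t : ℕ := n / N with ht
  set s : ℕ := k * (m * t) with hs
  have hNr : (N : ℝ) = 192 * w * k * m := by rw [hN]; push_cast; ring
  have ht1 : (n : ℝ) / N < t + 1 := by
    rw [div_lt_iff₀ (by exact_mod_cast hNpos)]
    have : n < N * (t + 1) := Nat.lt_mul_div_succ n hNpos
    have h2 : (n : ℝ) < N * (t + 1) := by exact_mod_cast this
    linarith
  have hs1 : (s : ℝ) ≤ n / (192 * w) := by
    have h2 : N * t ≤ n := Nat.mul_div_le n N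
    have h3 : (N : ℝ) * t ≤ n := by exact_mod_cast h2
    rw [le_div_iff₀ (by positivity), hs]
    push_cast
    rw [hNr] at h3
    linarith
  set Z : ℝ := (Fintype.card L : ℝ) ^ n with hZ
  have hZ0 : 0 ≤ Z := by rw [hZ]; positivity
  have hAZ : (A.card : ℝ) ≤ Z := by
    have := card_le_univ A
    rw [Fintype.card_fun, Fintype.card_fin] at this
    rw [hZ]
    exact_mod_cast this
  have h2 := weight (t := t) hw σ P hP F hF A hA hfree hq0.le hq1
  have h3 := few (n := n) s hq0.le hq1
  have h4 : Ex (wq q) (fun ρ : Restr (Fin n) => if s < (st ρ).card then (1 : ℝ) else 0) =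
      1 - Ex (wq q) (fun ρ : Restr (Fin n) => if (st ρ).card ≤ s then (1 : ℝ) else 0) := by
    have h5 : Ex (wq q) (fun ρ : Restr (Fin n) => (if s < (st ρ).card then (1 : ℝ) else 0) +
        (if (st ρ).card ≤ s then (1 : ℝ) else 0)) = 1 := by
      have : (fun ρ : Restr (Fin n) => (if s < (st ρ).card then (1 : ℝ) else 0) +
        (if (st ρ).card ≤ s then (1 : ℝ) else 0)) = fun _ => 1 := by
        funext ρ
        by_cases h : s < (st ρ).card
        · rw [if_pos h, if_neg (by omega), add_zero]
        · rw [if_neg h, if_pos (by omega), zero_add]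
      rw [this]
      exact Ex_const (wq_sum q) 1
    rw [Ex_add] at h5
    linarith
  rw [← hs, h4, hqw] at h2
  have h6 : (A.card : ℝ) ≤ Z * (2 ^ s * (1 - q / 2) ^ n) + k * (T * (Z * (1 / 4) ^ (t + 1))) := by
    have h7 : (A.card : ℝ) * Ex (wq q) (fun ρ : Restr (Fin n) =>
        if (st ρ).card ≤ s then (1 : ℝ) else 0) ≤ Z * (2 ^ s * (1 - q / 2) ^ n) := by
      refine mul_le_mul hAZ h3 (Ex_nonneg (wq_nonneg hq0.le (by linarith)) fun ρ => ?_) hZ0
      split_ifs <;> norm_num
    rw [mul_sub, mul_one] at h2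
    linarith
  have h8 : (n : ℝ) / (192 * w * k * m) ≤ n / (192 * w) := by
    apply div_le_div_of_nonneg_left (by positivity) (by positivity)
    have : (1 : ℝ) ≤ k * m := by nlinarith
    nlinarith
  have h9 : (2 : ℝ) ^ s * (1 - q / 2) ^ n ≤ Real.exp (-(n / (192 * w * k * m) : ℝ)) := by
    have h10 : (1 - q / 2) ^ n ≤ Real.exp (-(q / 2) * n) := by
      have h11 : 1 - q / 2 ≤ Real.exp (-(q / 2)) := by
        have := Real.add_one_le_exp (-(q / 2))
        linarith
      calc (1 - q / 2) ^ n ≤ Real.exp (-(q / 2)) ^ n :=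
            pow_le_pow_left₀ (by linarith) h11 n
        _ = Real.exp (-(q / 2) * n) := by rw [← Real.exp_nat_mul]; congr 1; ring
    have h12 : (2 : ℝ) ^ s ≤ Real.exp s := by
      have h13 : (2 : ℝ) ≤ Real.exp 1 := by linarith [Real.add_one_le_exp (1 : ℝ)]
      calc (2 : ℝ) ^ s ≤ Real.exp 1 ^ s := pow_le_pow_left₀ (by norm_num) h13 s
        _ = Real.exp s := by rw [← Real.exp_nat_mul]; congr 1; ring
    have h14 : q / 2 * n = 2 * (n / (192 * w)) := by
      rw [hq]
      have hw0 : (w : ℝ) ≠ 0 := by positivity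
      field_simp
      ring
    calc (2 : ℝ) ^ s * (1 - q / 2) ^ n ≤ Real.exp s * Real.exp (-(q / 2) * n) :=
          mul_le_mul h12 h10 (pow_nonneg (by linarith) _) (Real.exp_pos _).le
      _ = Real.exp (s - 2 * (n / (192 * w))) := by
          rw [← Real.exp_add]
          congr 1
          linarith
      _ ≤ Real.exp (-(n / (192 * w * k * m) : ℝ)) := Real.exp_le_exp.2 (by linarith)
  have h15 : (1 / 4 : ℝ) ^ (t + 1) ≤ Real.exp (-(n / (192 * w * k * m) : ℝ)) := by
    have h16 : (1 / 4 : ℝ) ≤ Real.exp (-1) := by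
      rw [Real.exp_neg, one_div]
      apply inv_anti₀ (Real.exp_pos 1)
      linarith [Real.exp_one_lt_d9]
    calc (1 / 4 : ℝ) ^ (t + 1) ≤ Real.exp (-1) ^ (t + 1) := pow_le_pow_left₀ (by norm_num) h16 _
      _ = Real.exp (-((t : ℝ) + 1)) := by rw [← Real.exp_nat_mul]; congr 1; push_cast; ring
      _ ≤ _ := by
        refine Real.exp_le_exp.2 ?_
        rw [hNr] at ht1
        linarith
  set e : ℝ := Real.exp (-(n / (192 * w * k * m) : ℝ)) with he
  calc (A.card : ℝ) ≤ Z * (2 ^ s * (1 - q / 2) ^ n) + k * (T * (Z * (1 / 4) ^ (t + 1))) := h6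
    _ ≤ Z * e + k * (T * (Z * e)) := by
        refine add_le_add (mul_le_mul_of_nonneg_left h9 hZ0) ?_
        refine mul_le_mul_of_nonneg_left ?_ (by linarith)
        refine mul_le_mul_of_nonneg_left ?_ (by positivity)
        exact mul_le_mul_of_nonneg_left h15 hZ0
    _ = (k * T + 1) * Z * e := by ring

end B

end Pool.Agent.T6.H6.LC
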