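import Pool.Agent.T6.H6.LC.Sw
import Pool.Agent.T6.H6.LC.Loc

/-!
# Relative densities in sets defined by local constraints

Let `A` be a set of words over a finite alphabet whose density is at most `θ` in every subcube with
at least `m` free coordinates. Then `A` has density at most `θ`, up to an exponentially small error,
relative to every set `F` which is a Boolean combination of few sets defined by local constraints.
-/

set_option autoImplicit false

namespace Pool.Agent.T6.H6.LC.Rel

open Finset
open Pool.Agent.T6.H6.LC.Sw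
open H568R2 (Ex Ex_mono Ex_nonneg Ex_const Ex_add Ex_sum Ex_smul Ex_push Ex_prod Ex_resample)

set_option linter.unusedSectionVars false

open Classical in
/-- the indicator of a proposition -/
noncomputable def b1 (P : Prop) : ℝ := if P then 1 else 0

lemma b1_pos {P : Prop} (h : P) : b1 P = 1 := if_pos h
lemma b1_neg {P : Prop} (h : ¬ P) : b1 P = 0 := if_neg h
lemma b1_nonneg (P : Prop) : 0 ≤ b1 P := by
  unfold b1; split_ifs <;> norm_num
lemma b1_le (P : Prop) : b1 P ≤ 1 := by
  unfold b1; split_ifs <;> norm_num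
lemma b1_mono {P Q : Prop} (h : P → Q) : b1 P ≤ b1 Q := by
  by_cases hP : P
  · rw [b1_pos hP, b1_pos (h hP)]
  · rw [b1_neg hP]; exact b1_nonneg Q

section Trees

variable {I Λ : Type} [DecidableEq I] [DecidableEq Λ]

lemma DTr.mono {k k' : ℕ} {f : (I → Λ) → Prop} (h : DTr k f) (hk : k ≤ k') : DTr k' f := by
  induction hk with
  | refl => exact h
  | step _ ih => exact ih.succ

lemma DTr.upd {k : ℕ} (i : I) (c : Λ) : ∀ {f : (I → Λ) → Prop}, DTr k f →
    DTr k (fun x => f (Function.update x i c)) := by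
  induction k with
  | zero =>
    rintro f (h | h)
    · exact Or.inl fun x => h _
    · exact Or.inr fun x => h _
  | succ k ih =>
    rintro f ((h | h) | ⟨j, h⟩)
    · exact Or.inl (Or.inl fun x => h _)
    · exact Or.inl (Or.inr fun x => h _)
    · by_cases hj : j = i
      · subst hj
        have h1 := (h c).succ
        refine (congrArg (DTr (k + 1)) (funext fun x => ?_)).mp h1
        rfl
      · refine Or.inr ⟨j, fun b => ?_⟩
        have h1 := ih (h b)
        refine (congrArg (DTr k) (funext fun x => ?_)).mp h1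
        show f (Function.update (Function.update x i c) j b) =
          f (Function.update (Function.update x j b) i c)
        rw [Function.update_comm (Ne.symm hj)]

lemma DTr.bind {a b : ℕ} : ∀ {f : (I → Λ) → Prop} {G : Prop → (I → Λ) → Prop}, DTr a f →
    (∀ c, DTr b (G c)) → DTr (a + b) (fun x => G (f x) x) := by
  induction a with
  | zero =>
    rintro f G (h | h) hG
    · rw [zero_add]
      refine (congrArg (DTr b) (funext fun x => ?_)).mp (hG True)
      rw [eq_true (h x)]
    · rw [zero_add]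
      refine (congrArg (DTr b) (funext fun x => ?_)).mp (hG False)
      rw [eq_false (h x)]
  | succ a ih =>
    rintro f G ((h | h) | ⟨i, h⟩) hG
    · refine DTr.mono ?_ (show b ≤ a + 1 + b by omega)
      refine (congrArg (DTr b) (funext fun x => ?_)).mp (hG True)
      rw [eq_true (h x)]
    · refine DTr.mono ?_ (show b ≤ a + 1 + b by omega)
      refine (congrArg (DTr b) (funext fun x => ?_)).mp (hG False)
      rw [eq_false (h x)]
    · have e : a + 1 + b = (a + b) + 1 := by omega
      rw [e]
      refine Or.inr ⟨i, fun c => ?_⟩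
      exact ih (G := fun P x => G P (Function.update x i c)) (h c) (fun P => DTr.upd i c (hG P))

lemma DTr.comb {t : ℕ} : ∀ {T : ℕ} (f : Fin T → (I → Λ) → Prop) (Φ : (Fin T → Prop) → Prop),
    (∀ i, DTr t (f i)) → DTr (T * t) (fun x => Φ (fun i => f i x)) := by
  intro T
  induction T with
  | zero =>
    intro f Φ _
    apply DTr.const
    by_cases h : Φ (fun i => i.elim0)
    · left
      intro x
      have : (fun i : Fin 0 => f i x) = fun i => i.elim0 := funext fun i => i.elim0
      rw [this]
      exact h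
    · right
      intro x
      have : (fun i : Fin 0 => f i x) = fun i => i.elim0 := funext fun i => i.elim0
      rw [this]
      exact h
  | succ T ih =>
    intro f Φ hf
    have h1 := DTr.bind (G := fun P x => Φ (Fin.cons P (fun i => f i.succ x))) (hf 0)
      (fun c => ih (fun i => f i.succ) (fun v => Φ (Fin.cons c v)) (fun i => hf i.succ))
    have e : (T + 1) * t = t + T * t := by ring
    rw [e]
    refine (congrArg (DTr (t + T * t)) (funext fun x => ?_)).mp h1
    congr 1
    funext i
    refine Fin.cases ?_ (fun j => ?_) i <;> simp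

end Trees

section Cubes

variable {n : ℕ} {Λ : Type} [Fintype Λ] [DecidableEq Λ] [Inhabited Λ]

/-- the stars -/
def st (ρ : Rst (Fin n) Λ) : Finset (Fin n) := univ.filter fun v => ρ v = none

/-- the mean over all words -/
noncomputable def U (f : (Fin n → Λ) → ℝ) : ℝ := Ex (fun _ : Λ => 1 / (Fintype.card Λ : ℝ)) f

lemma card_pos : (0 : ℝ) < Fintype.card Λ := by exact_mod_cast Fintype.card_pos

lemma un_sum : ∑ _a : Λ, 1 / (Fintype.card Λ : ℝ) = 1 := by
  rw [sum_const, card_univ, nsmul_eq_mul]
  have : (Fintype.card Λ : ℝ) ≠ 0 := card_pos.ne'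
  field_simp

lemma U_eq (f : (Fin n → Λ) → ℝ) : U f * (Fintype.card Λ : ℝ) ^ n = ∑ x, f x := by
  unfold U Ex
  rw [Finset.sum_mul]
  refine sum_congr rfl fun x _ => ?_
  rw [prod_const, card_univ, Fintype.card_fin]
  have : (Fintype.card Λ : ℝ) ^ n ≠ 0 := pow_ne_zero _ card_pos.ne'
  rw [div_pow, one_pow]
  field_simp

lemma U_mono {f g : (Fin n → Λ) → ℝ} (h : ∀ x, f x ≤ g x) : U f ≤ U g :=
  Ex_mono (fun _ => by have := card_pos (Λ := Λ); positivity) h

lemma U_nonneg {f : (Fin n → Λ) → ℝ} (h : ∀ x, 0 ≤ f x) : 0 ≤ U f :=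
  Ex_nonneg (fun _ => by have := card_pos (Λ := Λ); positivity) h

lemma U_const (c : ℝ) : U (fun _ : Fin n → Λ => c) = c := Ex_const un_sum c

lemma U_resample (f : (Fin n → Λ) → ℝ) (i : Fin n) :
    U f = ∑ b : Λ, 1 / (Fintype.card Λ : ℝ) * U (fun x => f (Function.update x i b)) := by
  unfold U
  rw [Ex_resample un_sum f i, Ex_sum]
  refine sum_congr rfl fun b _ => ?_
  rw [Ex_smul]

lemma ov_none {ρ : Rst (Fin n) Λ} {i : Fin n} (h : ρ i = none) (b : Λ) (x : Fin n → Λ) :
    ov ρ (Function.update x i b) = ov (Function.update ρ i (some b)) x := by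
  funext j
  unfold ov
  by_cases hj : j = i
  · subst hj
    simp [h]
  · rw [Function.update_of_ne hj, Function.update_of_ne hj]

lemma ov_some {ρ : Rst (Fin n) Λ} {i : Fin n} {c : Λ} (h : ρ i = some c) (b : Λ) (x : Fin n → Λ) :
    ov ρ (Function.update x i b) = ov ρ x := by
  funext j
  unfold ov
  by_cases hj : j = i
  · subst hj
    rw [h]
    rfl
  · rw [Function.update_of_ne hj]

lemma st_update {ρ : Rst (Fin n) Λ} {i : Fin n} (h : ρ i = none) (b : Λ) :
    (st (Function.update ρ i (some b))).card + 1 = (st ρ).card := by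
  have h1 : st (Function.update ρ i (some b)) = (st ρ).erase i := by
    ext j
    simp only [st, mem_filter, mem_univ, true_and, mem_erase]
    by_cases hj : j = i
    · subst hj
      simp
    · simp [hj]
  rw [h1]
  have hi : i ∈ st ρ := by simp [st, h]
  rw [card_erase_of_mem hi]
  have := Finset.card_pos.2 ⟨i, hi⟩
  omega

/-- **Relative density in a cube on which `F` has a decision tree.** -/
lemma dt_bound {θ : ℝ} {m : ℕ} (A F : (Fin n → Λ) → Prop)
    (H : ∀ ρ : Rst (Fin n) Λ, m ≤ (st ρ).card → U (fun x => b1 (A (ov ρ x))) ≤ θ) :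
    ∀ (t : ℕ) (ρ : Rst (Fin n) Λ), m + t ≤ (st ρ).card → DTr t (fun x => F (ov ρ x)) →
      U (fun x => b1 (A (ov ρ x) ∧ F (ov ρ x))) ≤ θ * U (fun x => b1 (F (ov ρ x))) := by
  have hconst : ∀ (ρ : Rst (Fin n) Λ), m ≤ (st ρ).card →
      ((∀ x, F (ov ρ x)) ∨ (∀ x, ¬ F (ov ρ x))) →
      U (fun x => b1 (A (ov ρ x) ∧ F (ov ρ x))) ≤ θ * U (fun x => b1 (F (ov ρ x))) := by
    rintro ρ hρ (h | h)
    · have e1 : (fun x => b1 (A (ov ρ x) ∧ F (ov ρ x))) = fun x => b1 (A (ov ρ x)) := by
        funext x
        rw [and_iff_left (h x)]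
      have e2 : (fun x => b1 (F (ov ρ x))) = fun _ => 1 := by
        funext x
        exact b1_pos (h x)
      rw [e1, e2, U_const, mul_one]
      exact H ρ hρ
    · have e1 : (fun x => b1 (A (ov ρ x) ∧ F (ov ρ x))) = fun _ => 0 := by
        funext x
        exact b1_neg fun h' => h x h'.2
      have e2 : (fun x => b1 (F (ov ρ x))) = fun _ => 0 := by
        funext x
        exact b1_neg (h x)
      rw [e1, e2, U_const, mul_zero]
  intro t
  induction t with
  | zero =>
    intro ρ hρ h
    exact hconst ρ (by omega) h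
  | succ t ih =>
    rintro ρ hρ (h | ⟨i, h⟩)
    · exact hconst ρ (by omega) h
    · cases hi : ρ i with
      | some c =>
        refine ih ρ (by omega) ?_
        have h1 := h (default : Λ)
        refine (congrArg (DTr t) (funext fun x => ?_)).mp h1
        show F (ov ρ (Function.update x i default)) = F (ov ρ x)
        rw [ov_some hi]
      | none =>
        rw [U_resample _ i, U_resample (fun x => b1 (F (ov ρ x))) i, mul_sum]
        refine sum_le_sum fun b _ => ?_
        have h1 := ih (Function.update ρ i (some b)) (by have := st_update hi b; omega) (by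
          refine (congrArg (DTr t) (funext fun x => ?_)).mp (h b)
          show F (ov ρ (Function.update x i b)) = _
          rw [ov_none hi])
        have e1 : (fun x => b1 (A (ov ρ (Function.update x i b)) ∧ F (ov ρ (Function.update x i b)))) =
            fun x => b1 (A (ov (Function.update ρ i (some b)) x) ∧
              F (ov (Function.update ρ i (some b)) x)) := by
          funext x
          rw [ov_none hi]
        have e2 : (fun x => b1 (F (ov ρ (Function.update x i b)))) =
            fun x => b1 (F (ov (Function.update ρ i (some b)) x)) := by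
          funext x
          rw [ov_none hi]
        rw [e1, e2]
        have h2 : (0 : ℝ) ≤ 1 / (Fintype.card Λ : ℝ) := by
          have := card_pos (Λ := Λ)
          positivity
        calc 1 / (Fintype.card Λ : ℝ) * _ ≤ 1 / (Fintype.card Λ : ℝ) * (θ * _) :=
              mul_le_mul_of_nonneg_left h1 h2
          _ = _ := by ring

/-- a random word of a random subcube is a random word -/
lemma average (q : ℝ) (g : (Fin n → Λ) → ℝ) :
    Ex (wq Λ q) (fun ρ : Rst (Fin n) Λ => U (fun x => g (ov ρ x))) = U g := by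
  have h1 := Ex_prod (I := Fin n) (wq Λ q) (fun _ : Λ => 1 / (Fintype.card Λ : ℝ))
    (fun ω => g (fun i => (ω i).1.getD (ω i).2))
  have h2 := Ex_push (I := Fin n) (fun c : Option Λ × Λ => c.1.getD c.2)
    (fun c : Option Λ × Λ => wq Λ q c.1 * (1 / (Fintype.card Λ : ℝ)))
    (fun _ : Λ => 1 / (Fintype.card Λ : ℝ)) (by
      intro b
      have hs := card_pos (Λ := Λ)
      rw [Finset.sum_filter, Fintype.sum_prod_type, Fintype.sum_option]
      have e1 : ∑ y : Λ, (if (none : Option Λ).getD y = b then
          wq Λ q none * (1 / (Fintype.card Λ : ℝ)) else 0) = q * (1 / (Fintype.card Λ : ℝ)) := by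
        simp only [Option.getD_none, sum_ite_eq', mem_univ, if_true]
        rfl
      have e2 : ∀ a : Λ, ∑ y : Λ, (if (some a : Option Λ).getD y = b then
          wq Λ q (some a) * (1 / (Fintype.card Λ : ℝ)) else 0) =
          if a = b then (1 - q) / (Fintype.card Λ : ℝ) else 0 := by
        intro a
        simp only [Option.getD_some]
        by_cases hab : a = b
        · simp only [hab, if_true, sum_const, card_univ, nsmul_eq_mul]
          show (Fintype.card Λ : ℝ) * ((1 - q) / Fintype.card Λ * (1 / Fintype.card Λ)) = _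
          field_simp
        · simp [hab]
      rw [e1, sum_congr rfl (fun a _ => e2 a)]
      simp only [sum_ite_eq', mem_univ, if_true]
      field_simp
      ring) g
  unfold U
  rw [← h2]
  exact h1.symm

open Classical in
lemma few (s : ℕ) {q : ℝ} (h0 : 0 ≤ q) (h1 : q ≤ 1 / 3) :
    Ex (wq Λ q) (fun ρ : Rst (Fin n) Λ => if (st ρ).card ≤ s then (1 : ℝ) else 0) ≤
      2 ^ s * (1 - q / 2) ^ n := by
  have h2 : ∀ ρ : Rst (Fin n) Λ, (if (st ρ).card ≤ s then (1 : ℝ) else 0) ≤
      2 ^ s * ∏ v, (if ρ v = none then (1 / 2 : ℝ) else 1) := by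
    intro ρ
    have h3 : ∏ v, (if ρ v = none then (1 / 2 : ℝ) else 1) = (1 / 2) ^ (st ρ).card := by
      rw [prod_ite, prod_const, prod_const_one, mul_one]
      congr 2
    rw [h3]
    split_ifs with h
    · have h4 : (2 : ℝ) ^ (st ρ).card ≤ 2 ^ s := pow_le_pow_right₀ (by norm_num) h
      have h5 : (0 : ℝ) < 2 ^ (st ρ).card := by positivity
      rw [one_div, inv_pow, ← div_eq_mul_inv, le_div_iff₀ h5]
      linarith
    · positivity
  refine (Ex_mono (wq_nonneg h0 (by linarith)) h2).trans ?_
  rw [Ex_smul]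
  refine mul_le_mul_of_nonneg_left (le_of_eq ?_) (by positivity)
  unfold Ex
  have h6 : ∀ ρ : Rst (Fin n) Λ, (∏ v, wq Λ q (ρ v)) *
      ∏ v, (if ρ v = none then (1 / 2 : ℝ) else 1) =
      ∏ v, (wq Λ q (ρ v) * (if ρ v = none then (1 / 2 : ℝ) else 1)) := fun ρ =>
    prod_mul_distrib.symm
  simp only [h6]
  rw [← Fintype.piFinset_univ, ← prod_univ_sum (fun _ => univ)
    (fun (_ : Fin n) (a : Option Λ) => wq Λ q a * (if a = none then (1 / 2 : ℝ) else 1))]
  rw [prod_const, card_univ, Fintype.card_fin]
  congr 1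
  rw [Fintype.sum_option]
  have hs := (card_pos (Λ := Λ)).ne'
  simp only [reduceCtorEq, if_true, if_false, mul_one]
  show q * (1 / 2) + ∑ _x : Λ, (1 - q) / (Fintype.card Λ : ℝ) = 1 - q / 2
  rw [sum_const, card_univ, nsmul_eq_mul]
  field_simp
  ring

open Classical in
/-- the complement of a set defined by local constraints is a union of large cylinders -/
lemma local_dnf {w : ℕ} {F : Set (Fin n → Λ)} (hF : Local w F) :
    ∃ L : List (Term (Fin n) Λ), (∀ T ∈ L, T.1.card ≤ w) ∧ ∀ x, x ∈ F ↔ ¬ Dnf L x := by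
  refine ⟨(univ.filter (fun T : Term (Fin n) Λ => T.1.card ≤ w ∧
    ∀ x : Fin n → Λ, (∀ i ∈ T.1, x i = T.2 i) → x ∉ F)).toList, ?_, ?_⟩
  · intro T hT
    rw [Finset.mem_toList, Finset.mem_filter] at hT
    exact hT.2.1
  · intro x
    constructor
    · rintro hx ⟨T, hT, h⟩
      rw [Finset.mem_toList, Finset.mem_filter] at hT
      exact hT.2.2 x h hx
    · intro h
      by_contra hx
      obtain ⟨S, hS, hy⟩ := hF x hx
      apply h
      refine ⟨(S, x), ?_, fun i _ => rfl⟩
      rw [Finset.mem_toList, Finset.mem_filter]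
      refine ⟨mem_univ _, hS, fun y hyx hyF => ?_⟩
      obtain ⟨i, hi, hne⟩ := hy y hyF
      exact hne (hyx i hi)

open Classical in
/-- **The relative theorem.** -/
theorem rel {T w : ℕ} (hT : 1 ≤ T) (hw : 1 ≤ w) (D : Fin T → Set (Fin n → Λ))
    (hD : ∀ i, Local w (D i)) (Φ : (Fin T → Prop) → Prop) (A : (Fin n → Λ) → Prop) {θ : ℝ}
    (hθ : 0 ≤ θ)
    (H : ∀ ρ : Rst (Fin n) Λ, n / (96 * Fintype.card Λ ^ 2 * w) ≤ (st ρ).card →
      U (fun x => b1 (A (ov ρ x))) ≤ θ) :
    U (fun x => b1 (A x ∧ Φ (fun i => x ∈ D i))) ≤ θ * U (fun x => b1 (Φ (fun i => x ∈ D i))) +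
      (T + 1) * Real.exp (-(n / (96 * Fintype.card Λ ^ 2 * w * T) : ℝ)) := by
  have hs := card_pos (Λ := Λ)
  have hs1 : (1 : ℝ) ≤ Fintype.card Λ := by exact_mod_cast Fintype.card_pos (α := Λ)
  have hwr : (1 : ℝ) ≤ w := by exact_mod_cast hw
  have hTr : (1 : ℝ) ≤ T := by exact_mod_cast hT
  set F : (Fin n → Λ) → Prop := fun x => Φ (fun i => x ∈ D i) with hFdef
  set N : ℕ := 96 * Fintype.card Λ ^ 2 * w with hN
  have hNpos : 0 < N := by
    have h1 : 0 < Fintype.card Λ := Fintype.card_pos
    have h2 : 0 < Fintype.card Λ ^ 2 * w := Nat.mul_pos (by positivity) (by omega)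
    rw [hN, mul_assoc]
    omega
  have hNr : (N : ℝ) = 96 * Fintype.card Λ ^ 2 * w := by rw [hN]; push_cast; ring
  have hNr0 : (0 : ℝ) < N := by exact_mod_cast hNpos
  set q : ℝ := 8 / N with hq
  have hq0 : 0 < q := by positivity
  have hq1 : q ≤ 1 / 3 := by
    rw [hq, div_le_div_iff₀ hNr0 (by norm_num), hNr]
    have : (1 : ℝ) ≤ (Fintype.card Λ : ℝ) ^ 2 * w := by
      have : (1 : ℝ) ≤ (Fintype.card Λ : ℝ) ^ 2 := one_le_pow₀ hs1
      nlinarith
    nlinarith
  have hq4 : 3 * (Fintype.card Λ : ℝ) ^ 2 * w * q = 1 / 4 := by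
    rw [hq, hNr]
    field_simp
    norm_num
  set m : ℕ := n / N with hm
  set t : ℕ := n / (N * T) with ht
  have hTt : T * t ≤ m := by
    rw [hm, ht, ← Nat.div_div_eq_div_mul]
    exact Nat.mul_div_le _ _
  set E : ℝ := Real.exp (-(n / (N * T) : ℝ)) with hE
  have hE0 : 0 < E := Real.exp_pos _
  -- the probability of the bad restrictions
  set bad : Rst (Fin n) Λ → ℝ := fun ρ => (if (st ρ).card ≤ m + T * t then (1 : ℝ) else 0) +
    ∑ i : Fin T, (if ¬ DTr t (fun x => ov ρ x ∈ D i) then (1 : ℝ) else 0) with hbad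
  have hbad0 : ∀ ρ, 0 ≤ bad ρ := by
    intro ρ
    simp only [hbad]
    refine add_nonneg (by split_ifs <;> norm_num) (sum_nonneg fun i _ => ?_)
    split_ifs <;> norm_num
  have hP : Ex (wq Λ q) bad ≤ (T + 1) * E := by
    simp only [hbad]
    rw [Ex_add, Ex_sum]
    have h1 : Ex (wq Λ q) (fun ρ : Rst (Fin n) Λ =>
        if (st ρ).card ≤ m + T * t then (1 : ℝ) else 0) ≤ E := by
      refine (few (m + T * t) hq0.le hq1).trans ?_
      have h10 : (1 - q / 2) ^ n ≤ Real.exp (-(q / 2) * n) := by
        have h11 : 1 - q / 2 ≤ Real.exp (-(q / 2)) := by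
          have := Real.add_one_le_exp (-(q / 2))
          linarith
        calc (1 - q / 2) ^ n ≤ Real.exp (-(q / 2)) ^ n :=
              pow_le_pow_left₀ (by linarith) h11 n
          _ = Real.exp (-(q / 2) * n) := by rw [← Real.exp_nat_mul]; congr 1; ring
      have h12 : (2 : ℝ) ^ (m + T * t) ≤ Real.exp ((m + T * t : ℕ) : ℝ) := by
        have h13 : (2 : ℝ) ≤ Real.exp 1 := by linarith [Real.add_one_le_exp (1 : ℝ)]
        calc (2 : ℝ) ^ (m + T * t) ≤ Real.exp 1 ^ (m + T * t) :=
              pow_le_pow_left₀ (by norm_num) h13 _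
          _ = Real.exp ((m + T * t : ℕ) : ℝ) := by rw [← Real.exp_nat_mul]; congr 1; ring
      have h14 : ((m + T * t : ℕ) : ℝ) ≤ 2 * (n / N) := by
        have h15 : m + T * t ≤ 2 * m := by omega
        have h16 : ((m + T * t : ℕ) : ℝ) ≤ 2 * m := by exact_mod_cast h15
        have h17 : (m : ℝ) ≤ n / N := by
          rw [le_div_iff₀ hNr0]
          have : m * N ≤ n := Nat.div_mul_le_self n N
          exact_mod_cast this
        linarith
      have h18 : q / 2 * n = 4 * (n / N) := by
        rw [hq]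
        ring
      have h19 : (n : ℝ) / (N * T) ≤ n / N := by
        apply div_le_div_of_nonneg_left (by positivity) hNr0
        nlinarith
      have h20 : (0 : ℝ) ≤ n / N := by positivity
      calc (2 : ℝ) ^ (m + T * t) * (1 - q / 2) ^ n
          ≤ Real.exp ((m + T * t : ℕ) : ℝ) * Real.exp (-(q / 2) * n) :=
            mul_le_mul h12 h10 (pow_nonneg (by linarith) _) (Real.exp_pos _).le
        _ = Real.exp (((m + T * t : ℕ) : ℝ) - 4 * (n / N)) := by
            rw [← Real.exp_add]
            congr 1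
            linarith
        _ ≤ E := Real.exp_le_exp.2 (by linarith)
    have h2 : ∀ i : Fin T, Ex (wq Λ q) (fun ρ : Rst (Fin n) Λ =>
        if ¬ DTr t (fun x => ov ρ x ∈ D i) then (1 : ℝ) else 0) ≤ E := by
      intro i
      obtain ⟨L, hL, hLD⟩ := local_dnf (hD i)
      have h3 := switch_dnf (k := t) hw hq0.le hq1 L hL
      rw [hq4] at h3
      have h4 : (fun ρ : Rst (Fin n) Λ => if ¬ DTr t (fun x => ov ρ x ∈ D i) then (1 : ℝ) else 0) =
          fun ρ : Rst (Fin n) Λ => if ¬ DTr t (fun x => Dnf L (ov ρ x)) then (1 : ℝ) else 0 := by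
        funext ρ
        have h5 : DTr t (fun x => ov ρ x ∈ D i) ↔ DTr t (fun x => Dnf L (ov ρ x)) := by
          constructor
          · intro h
            refine (congrArg (DTr t) (funext fun x => ?_)).mp h.not
            exact propext ⟨fun h' => by_contra fun h'' => h' ((hLD _).2 h''),
              fun h' h'' => (hLD _).1 h'' h'⟩
          · intro h
            refine (congrArg (DTr t) (funext fun x => ?_)).mp h.not
            exact propext (hLD _).symm
        by_cases h6 : DTr t (fun x => ov ρ x ∈ D i)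
        · rw [if_neg (not_not.2 h6), if_neg (not_not.2 (h5.1 h6))]
        · rw [if_pos h6, if_pos (fun h => h6 (h5.2 h))]
      rw [h4]
      refine h3.trans ?_
      have h16 : (1 / 4 : ℝ) ≤ Real.exp (-1) := by
        rw [Real.exp_neg, one_div]
        apply inv_anti₀ (Real.exp_pos 1)
        linarith [Real.exp_one_lt_d9]
      have h17 : (n : ℝ) / (N * T) < t + 1 := by
        rw [div_lt_iff₀ (by positivity)]
        have h18 : n < N * T * (t + 1) := Nat.lt_mul_div_succ n (Nat.mul_pos hNpos (by omega))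
        have h19 : (n : ℝ) < N * T * (t + 1) := by exact_mod_cast h18
        linarith
      calc (1 / 4 : ℝ) ^ (t + 1) ≤ Real.exp (-1) ^ (t + 1) := pow_le_pow_left₀ (by norm_num) h16 _
        _ = Real.exp (-((t : ℝ) + 1)) := by rw [← Real.exp_nat_mul]; congr 1; push_cast; ring
        _ ≤ E := Real.exp_le_exp.2 (by linarith)
    have h3 : ∑ i : Fin T, Ex (wq Λ q) (fun ρ : Rst (Fin n) Λ =>
        if ¬ DTr t (fun x => ov ρ x ∈ D i) then (1 : ℝ) else 0) ≤ T * E := by
      refine (sum_le_sum fun i _ => h2 i).trans (le_of_eq ?_)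
      rw [sum_const, card_univ, nsmul_eq_mul, Fintype.card_fin]
    linarith
  -- the good restrictions
  have hgood : ∀ ρ : Rst (Fin n) Λ, U (fun x => b1 (A (ov ρ x) ∧ F (ov ρ x))) ≤
      θ * U (fun x => b1 (F (ov ρ x))) + bad ρ := by
    intro ρ
    have hle1 : U (fun x => b1 (A (ov ρ x) ∧ F (ov ρ x))) ≤ 1 :=
      (U_mono fun x => b1_le _).trans (le_of_eq (U_const 1))
    have hnn : 0 ≤ θ * U (fun x => b1 (F (ov ρ x))) :=
      mul_nonneg hθ (U_nonneg fun x => b1_nonneg _)
    have hsum0 : ∀ i : Fin T, 0 ≤ (if ¬ DTr t (fun x => ov ρ x ∈ D i) then (1 : ℝ) else 0) := by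
      intro i
      split_ifs <;> norm_num
    by_cases h1 : (st ρ).card ≤ m + T * t
    · have : 1 ≤ bad ρ := by
        simp only [hbad, if_pos h1]
        have := sum_nonneg (s := univ) fun (i : Fin T) _ => hsum0 i
        linarith
      linarith
    · by_cases h2 : ∀ i, DTr t (fun x => ov ρ x ∈ D i)
      · have h3 := dt_bound (m := m) A F H (T * t) ρ (by omega)
          (DTr.comb (fun i x => ov ρ x ∈ D i) Φ h2)
        have := hbad0 ρ
        linarith
      · push Not at h2
        obtain ⟨i, hi⟩ := h2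
        have h3 := single_le_sum (f := fun i : Fin T =>
          (if ¬ DTr t (fun x => ov ρ x ∈ D i) then (1 : ℝ) else 0))
          (fun i _ => hsum0 i) (mem_univ i)
        simp only [hi, not_false_eq_true, if_true] at h3
        have : 1 ≤ bad ρ := by
          simp only [hbad, if_neg h1, zero_add]
          exact h3
        linarith
  have h1 := Ex_mono (wq_nonneg (Λ := Λ) hq0.le (by linarith)) hgood
  rw [Ex_add, Ex_smul, average q (fun x => b1 (A x ∧ F x)), average q (fun x => b1 (F x))] at h1
  have e : (96 * (Fintype.card Λ : ℝ) ^ 2 * w * T) = N * T := by rw [hNr]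
  rw [e]
  linarith

end Cubes

end Pool.Agent.T6.H6.LC.Rel
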