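import Pool.Agent.H568R2.Prob

/-!
# The switching lemma for a finite alphabet

After `Pool.Agent.H676.DT` and `Pool.Agent.H568R2.Switch` (Boolean variables). A restriction leaves
every coordinate free with probability `q` and gives it a random letter otherwise. If a set of words
over an alphabet with `s` letters is defined by local constraints of width `t`, then its restriction
is decided by a decision tree of depth `k` except with probability `(3 s² t q) ^ (k + 1)`.
-/

set_option autoImplicit false

namespace Pool.Agent.T6.H6.LC.Sw

open Finset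
open H568R2 (Ex Ex_mono Ex_nonneg Ex_const Ex_add Ex_sum Ex_smul)

set_option linter.unusedSectionVars false

section Defs

variable {I Λ : Type}

/-- A restriction: `none` is a star. -/
abbrev Rst (I Λ : Type) := I → Option Λ

/-- Fill the stars of `ρ` by the values of `x`. -/
def ov (ρ : Rst I Λ) (x : I → Λ) : I → Λ := fun i => (ρ i).getD (x i)

variable [DecidableEq I] [DecidableEq Λ]

/-- terms: a set of variables with required values -/
abbrev Term (I Λ : Type) := Finset I × (I → Λ)

def nonfals (ρ : Rst I Λ) (T : Term I Λ) : Bool :=
  decide (∀ i ∈ T.1, ρ i = none ∨ ρ i = some (T.2 i))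

lemma nonfals_iff (ρ : Rst I Λ) (T : Term I Λ) :
    nonfals ρ T = true ↔ ∀ i ∈ T.1, ρ i = none ∨ ρ i = some (T.2 i) := by
  rw [nonfals, decide_eq_true_eq]

def stars (ρ : Rst I Λ) (T : Term I Λ) : Finset I := T.1.filter (fun i => ρ i = none)

def setOn (ρ : Rst I Λ) (A : Finset I) (π : I → Λ) : Rst I Λ :=
  fun i => if i ∈ A then some (π i) else ρ i

def unset (ρ : Rst I Λ) (A : Finset I) : Rst I Λ := fun i => if i ∈ A then none else ρ i

/-- the union of the cylinders of the terms -/
def Dnf (L : List (Term I Λ)) (x : I → Λ) : Prop := ∃ T ∈ L, ∀ i ∈ T.1, x i = T.2 i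

/-- decision tree depth at most `k` -/
def DTr : ℕ → ((I → Λ) → Prop) → Prop
  | 0, f => (∀ x, f x) ∨ (∀ x, ¬ f x)
  | k + 1, f => ((∀ x, f x) ∨ (∀ x, ¬ f x)) ∨ ∃ i, ∀ b, DTr k (fun x => f (Function.update x i b))

lemma DTr.const {k : ℕ} {f : (I → Λ) → Prop} (h : (∀ x, f x) ∨ (∀ x, ¬ f x)) : DTr k f := by
  cases k with
  | zero => exact h
  | succ k => exact Or.inl h

lemma DTr.succ {k : ℕ} : ∀ {f : (I → Λ) → Prop}, DTr k f → DTr (k + 1) f := by
  induction k with
  | zero => intro f h; exact Or.inl h
  | succ k ih =>
    intro f h
    rcases h with h | ⟨i, h⟩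
    · exact Or.inl h
    · exact Or.inr ⟨i, fun b => ih (h b)⟩

lemma DTr.not {k : ℕ} : ∀ {f : (I → Λ) → Prop}, DTr k f → DTr k (fun x => ¬ f x) := by
  induction k with
  | zero =>
    rintro f (h | h)
    · exact Or.inr fun x h' => h' (h x)
    · exact Or.inl h
  | succ k ih =>
    rintro f ((h | h) | ⟨i, h⟩)
    · exact Or.inl (Or.inr fun x h' => h' (h x))
    · exact Or.inl (Or.inl h)
    · exact Or.inr ⟨i, fun b => ih (h b)⟩

/-- overwrite the coordinates in `A` -/
def ow (A : Finset I) (π x : I → Λ) : I → Λ := fun i => if i ∈ A then π i else x i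

lemma DTr.query [Inhabited Λ] {j : ℕ} (A : Finset I) : ∀ {g : (I → Λ) → Prop},
    (∀ π, DTr j (fun x => g (ow A π x))) → DTr (A.card + j) g := by
  induction A using Finset.induction_on with
  | empty =>
    intro g h
    have := h (fun _ => default)
    rw [Finset.card_empty, zero_add]
    refine (congrArg (DTr j) (funext fun x => ?_)).mp this
    congr 1
  | insert i A hi ih =>
    intro g h
    rw [Finset.card_insert_of_notMem hi]
    have h1 : DTr (A.card + j + 1) g := by
      refine Or.inr ⟨i, fun b => ?_⟩
      apply ih
      intro π
      have h2 := h (Function.update π i b)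
      refine (congrArg (DTr j) (funext fun x => ?_)).mp h2
      congr 1
      funext l
      unfold ow
      by_cases hl : l = i
      · subst hl; simp
      · simp [hl, Finset.mem_insert]
    have h3 : A.card + 1 + j = A.card + j + 1 := by ring
    rw [h3]
    exact h1

/-- encodings for the switching lemma -/
inductive Enc3 (L : List (Term I Λ)) : ℕ → Rst I Λ → Rst I Λ → Prop
  | nil (ρ : Rst I Λ) : Enc3 L 0 ρ ρ
  | step {k : ℕ} {ρ ρ'' : Rst I Λ} (T : Term I Λ) (hT : L.find? (nonfals ρ) = some T)
      (A : Finset I) (hA : A ⊆ stars ρ T) (hne : A.Nonempty) (hAk : A = stars ρ T ∨ k = 0)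
      (π : I → Λ) (h : Enc3 L k (setOn ρ A π) ρ'') :
      Enc3 L (A.card + k) ρ (setOn ρ'' A T.2)

lemma stars_none {ρ : Rst I Λ} {T : Term I Λ} {A : Finset I} (hA : A ⊆ stars ρ T) {i : I}
    (hi : i ∈ A) : ρ i = none := (Finset.mem_filter.1 (hA hi)).2

lemma Enc3.ext {L : List (Term I Λ)} {k : ℕ} {ρ ρ' : Rst I Λ} (h : Enc3 L k ρ ρ') :
    ∀ i b, ρ i = some b → ρ' i = some b := by
  induction h with
  | nil ρ => exact fun i b h => h
  | step T hT A hA hne hAk π h ih =>
    intro i b hi
    have hiA : i ∉ A := by
      intro hA'
      rw [stars_none hA hA'] at hi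
      cases hi
    have h2 := ih i b (by unfold setOn; rw [if_neg hiA]; exact hi)
    unfold setOn
    rw [if_neg hiA]
    exact h2

lemma find_eq {α : Type} (L : List α) (p p' : α → Bool) (T : α) (h : L.find? p = some T)
    (h1 : ∀ S, p' S = true → p S = true) (h2 : p' T = true) : L.find? p' = some T := by
  induction L with
  | nil => simp at h
  | cons a L ih =>
    rw [List.find?_cons] at h ⊢
    cases ha : p a with
    | true =>
      rw [ha] at h
      simp only [Option.some.injEq] at h
      subst h
      rw [h2]
    | false =>
      rw [ha] at h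
      cases ha' : p' a with
      | true =>
        have := h1 a ha'
        rw [ha] at this
        exact absurd this (by simp)
      | false => exact ih h

lemma ov_setOn {ρ : Rst I Λ} {A : Finset I} {π : I → Λ} (hA : ∀ i ∈ A, ρ i = none) (x : I → Λ) :
    ov ρ (ow A π x) = ov (setOn ρ A π) x := by
  funext i
  unfold ov setOn ow
  by_cases hi : i ∈ A
  · rw [if_pos hi, if_pos hi, hA i hi]; rfl
  · rw [if_neg hi, if_neg hi]

lemma Enc3.exists [Inhabited Λ] {L : List (Term I Λ)} :
    ∀ (k : ℕ) (ρ : Rst I Λ), ¬ DTr k (fun x => Dnf L (ov ρ x)) → ∃ ρ', Enc3 L (k + 1) ρ ρ' := by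
  intro k
  induction k using Nat.strong_induction_on with
  | _ k ih =>
    intro ρ h
    cases hT : L.find? (nonfals ρ) with
    | none =>
      exfalso
      apply h
      apply DTr.const
      refine Or.inr fun x => ?_
      rw [List.find?_eq_none] at hT
      rintro ⟨T, hTL, hx⟩
      apply hT T hTL
      rw [nonfals_iff]
      intro i hi
      have := hx i hi
      unfold ov at this
      cases hρ : ρ i with
      | none => left; rfl
      | some b => rw [hρ] at this; right; simp at this; rw [this]
    | some T =>
      have hTmem := List.mem_of_find?_eq_some hT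
      have hnf := List.find?_some hT
      rw [nonfals_iff] at hnf
      by_cases hne : (stars ρ T).Nonempty
      · by_cases hcard : (stars ρ T).card ≤ k
        · have : ∃ π, ¬ DTr (k - (stars ρ T).card) (fun x => Dnf L (ov (setOn ρ (stars ρ T) π) x)) := by
            by_contra hcon
            push Not at hcon
            apply h
            have h1 : DTr ((stars ρ T).card + (k - (stars ρ T).card)) (fun x => Dnf L (ov ρ x)) := by
              apply DTr.query
              intro π
              have h2 := hcon π
              refine (congrArg (DTr _) (funext fun x => ?_)).mp h2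
              rw [ov_setOn (A := stars ρ T) (fun i hi => (Finset.mem_filter.1 hi).2) x]
            have h3 : (stars ρ T).card + (k - (stars ρ T).card) = k := by omega
            rw [h3] at h1
            exact h1
          obtain ⟨π, hπ⟩ := this
          have hpos := Finset.card_pos.2 hne
          obtain ⟨ρ'', hE⟩ := ih (k - (stars ρ T).card) (by omega) _ hπ
          refine ⟨setOn ρ'' (stars ρ T) T.2, ?_⟩
          have h4 : k + 1 = (stars ρ T).card + (k - (stars ρ T).card + 1) := by omega
          rw [h4]
          exact Enc3.step T hT _ (Finset.Subset.refl _) hne (Or.inl rfl) π hE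
        · push Not at hcard
          obtain ⟨A, hA, hAc⟩ := Finset.exists_subset_card_eq (show k + 1 ≤ (stars ρ T).card by omega)
          refine ⟨setOn (setOn ρ A (fun _ => default)) A T.2, ?_⟩
          have h4 : k + 1 = A.card + 0 := by omega
          rw [h4]
          exact Enc3.step T hT A hA (Finset.card_pos.1 (by omega)) (Or.inr rfl) _ (Enc3.nil _)
      · exfalso
        apply h
        apply DTr.const
        refine Or.inl fun x => ?_
        refine ⟨T, hTmem, ?_⟩
        intro i hi
        rcases hnf i hi with h | h
        · exact absurd ⟨i, Finset.mem_filter.2 ⟨hi, h⟩⟩ hne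
        · unfold ov; rw [h]; rfl

end Defs

section Main

variable {I Λ : Type} [Fintype I] [DecidableEq I] [Fintype Λ] [DecidableEq Λ]

/-- weight of one coordinate -/
noncomputable def wq (Λ : Type) [Fintype Λ] (q : ℝ) : Option Λ → ℝ
  | none => q
  | some _ => (1 - q) / Fintype.card Λ

lemma wq_nonneg {q : ℝ} (h0 : 0 ≤ q) (h1 : q ≤ 1) (a : Option Λ) : 0 ≤ wq Λ q a := by
  cases a with
  | none => exact h0
  | some b =>
    show 0 ≤ (1 - q) / (Fintype.card Λ : ℝ)
    exact div_nonneg (by linarith) (by positivity)

lemma wq_sum [Nonempty Λ] (q : ℝ) : ∑ a, wq Λ q a = 1 := by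
  rw [Fintype.sum_option]
  show q + ∑ _i : Λ, (1 - q) / (Fintype.card Λ : ℝ) = 1
  rw [sum_const, card_univ, nsmul_eq_mul]
  have : (Fintype.card Λ : ℝ) ≠ 0 := by exact_mod_cast Fintype.card_ne_zero
  field_simp
  ring

lemma Enc3.weight [Nonempty Λ] {q : ℝ} (h0 : 0 ≤ q) (h1 : q ≤ 1 / 3) {L : List (Term I Λ)} {k : ℕ}
    {ρ ρ' : Rst I Λ} (h : Enc3 L k ρ ρ') :
    ∏ i, wq Λ q (ρ i) ≤ (3 / 2 * Fintype.card Λ * q) ^ k * ∏ i, wq Λ q (ρ' i) := by
  have hs0 : (0 : ℝ) < Fintype.card Λ := by exact_mod_cast Fintype.card_pos
  induction h with
  | nil ρ => simp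
  | @step k ρ ρ'' T hT A hA hne hAk π h ih =>
    have hs : ∀ i ∈ A, ρ i = none := fun i hi => stars_none hA hi
    have a1 : ∏ i, wq Λ q (ρ i) ≤
        (3 / 2 * Fintype.card Λ * q) ^ A.card * ∏ i, wq Λ q (setOn ρ A π i) := by
      have e1 : ∏ i, (if i ∈ A then 3 / 2 * Fintype.card Λ * q else 1) =
          (3 / 2 * Fintype.card Λ * q) ^ A.card := by
        rw [Finset.prod_ite_mem, Finset.univ_inter, Finset.prod_const]
      rw [← e1, ← Finset.prod_mul_distrib]
      refine Finset.prod_le_prod (fun i _ => wq_nonneg h0 (by linarith) _) fun i _ => ?_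
      unfold setOn
      by_cases hi : i ∈ A
      · rw [if_pos hi, if_pos hi, hs i hi]
        show q ≤ 3 / 2 * Fintype.card Λ * q * ((1 - q) / Fintype.card Λ)
        have : 3 / 2 * Fintype.card Λ * q * ((1 - q) / Fintype.card Λ) = 3 / 2 * q * (1 - q) := by
          field_simp
        rw [this]
        nlinarith
      · rw [if_neg hi, if_neg hi, one_mul]
    have a3 : ∏ i, wq Λ q (setOn ρ'' A T.2 i) = ∏ i, wq Λ q (ρ'' i) := by
      refine Finset.prod_congr rfl fun i _ => ?_
      unfold setOn
      by_cases hi : i ∈ A
      · rw [if_pos hi]
        have : ρ'' i = some (π i) := h.ext i (π i) (by unfold setOn; rw [if_pos hi])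
        rw [this]; rfl
      · rw [if_neg hi]
    rw [a3]
    calc ∏ i, wq Λ q (ρ i)
        ≤ (3 / 2 * Fintype.card Λ * q) ^ A.card * ∏ i, wq Λ q (setOn ρ A π i) := a1
      _ ≤ (3 / 2 * Fintype.card Λ * q) ^ A.card *
          ((3 / 2 * Fintype.card Λ * q) ^ k * ∏ i, wq Λ q (ρ'' i)) :=
        mul_le_mul_of_nonneg_left ih (by positivity)
      _ = (3 / 2 * Fintype.card Λ * q) ^ (A.card + k) * ∏ i, wq Λ q (ρ'' i) := by
        rw [pow_add]; ring

open Classical in
lemma Enc3.count [Nonempty Λ] {L : List (Term I Λ)} {t : ℕ} (ht : 1 ≤ t)
    (hL : ∀ T ∈ L, T.1.card ≤ t) :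
    ∀ (m : ℕ) (ρ' : Rst I Λ),
      ((univ.filter (fun ρ : Rst I Λ => Enc3 L m ρ ρ')).card : ℝ) ≤
        (2 * Fintype.card Λ * t) ^ m := by
  have hs0 : (0 : ℝ) < Fintype.card Λ := by exact_mod_cast Fintype.card_pos
  have hs1 : (1 : ℝ) ≤ Fintype.card Λ := by exact_mod_cast Fintype.card_pos (α := Λ)
  set s : ℝ := (Fintype.card Λ : ℝ) with hsdef
  obtain ⟨d⟩ := (inferInstance : Nonempty Λ)
  intro m
  induction m using Nat.strong_induction_on with
  | _ m ih =>
    intro ρ'
    rcases Nat.eq_zero_or_pos m with hm | hm
    · subst hm
      have : (univ.filter (fun ρ : Rst I Λ => Enc3 L 0 ρ ρ')) ⊆ {ρ'} := by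
        intro ρ hρ
        have h : Enc3 L 0 ρ ρ' := (Finset.mem_filter.1 hρ).2
        rw [Finset.mem_singleton]
        generalize hk : 0 = k at h
        cases h with
        | nil => rfl
        | step T hT A hA hne =>
          exfalso
          have := Finset.card_pos.2 hne
          omega
      have h2 := Finset.card_le_card this
      rw [Finset.card_singleton] at h2
      rw [pow_zero]
      exact_mod_cast h2
    · cases hT : L.find? (nonfals ρ') with
      | none =>
        have : (univ.filter (fun ρ : Rst I Λ => Enc3 L m ρ ρ')) = ∅ := by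
          rw [Finset.filter_eq_empty_iff]
          rintro ρ - h
          have hext := h.ext
          cases h with
          | nil => omega
          | @step k _ ρ'' T hf A hA hne hAk π hE =>
            have hmem := List.mem_of_find?_eq_some hf
            have hnf := List.find?_some hf
            rw [List.find?_eq_none] at hT
            apply hT T hmem
            rw [nonfals_iff] at hnf ⊢
            intro i hi
            by_cases hiA : i ∈ A
            · right; unfold setOn; rw [if_pos hiA]
            · rcases hnf i hi with h | h
              · left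
                rcases hAk with hAk | hAk
                · exact absurd (hAk ▸ Finset.mem_filter.2 ⟨hi, h⟩) hiA
                · subst hAk
                  generalize hk : 0 = k at hE
                  cases hE with
                  | nil => unfold setOn; rw [if_neg hiA, if_neg hiA]; exact h
                  | step T' hT' A' hA' hne' =>
                    exfalso
                    have := Finset.card_pos.2 hne'
                    omega
              · right; exact hext i _ h
        rw [this]
        simp only [card_empty, Nat.cast_zero]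
        positivity
      | some T =>
        have hTmem := List.mem_of_find?_eq_some hT
        have hsub : (univ.filter (fun ρ : Rst I Λ => Enc3 L m ρ ρ')) ⊆
            (T.1.powerset.filter (fun A => 1 ≤ A.card ∧ A.card ≤ m)).biUnion (fun A =>
              (Fintype.piFinset (fun i => if i ∈ A then (univ : Finset Λ) else {d})).biUnion
              (fun P => (univ.filter (fun ρ : Rst I Λ =>
                Enc3 L (m - A.card) ρ (setOn ρ' A P))).image
                (fun ρ => unset ρ A))) := by
          intro ρ hρ
          have h : Enc3 L m ρ ρ' := (Finset.mem_filter.1 hρ).2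
          have hext := h.ext
          generalize hρ' : ρ' = σ at h
          cases h with
          | nil => omega
          | @step k _ ρ'' T' hf A hA hne hAk π hE =>
            have hnf := List.find?_some hf
            have hTT : T' = T := by
              have := find_eq L (nonfals ρ) (nonfals ρ') T' hf (by
                intro S hS
                rw [nonfals_iff] at hS ⊢
                intro i hi
                cases hρi : ρ i with
                | none => left; rfl
                | some b =>
                  right
                  have := hext i b hρi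
                  rcases hS i hi with h | h
                  · rw [this] at h; cases h
                  · rw [this] at h; exact h) (by
                rw [nonfals_iff] at hnf ⊢
                intro i hi
                by_cases hiA : i ∈ A
                · right; rw [hρ']; unfold setOn; rw [if_pos hiA]
                · rcases hnf i hi with h | h
                  · left
                    rcases hAk with hAk | hAk
                    · exact absurd (hAk ▸ Finset.mem_filter.2 ⟨hi, h⟩) hiA
                    · subst hAk
                      generalize hk : 0 = k at hE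
                      cases hE with
                      | nil => rw [hρ']; unfold setOn; rw [if_neg hiA, if_neg hiA]; exact h
                      | step T' hT' A' hA' hne' =>
                        exfalso
                        have := Finset.card_pos.2 hne'
                        omega
                  · right; exact hext i _ h)
              rw [hT] at this
              exact (Option.some.inj this).symm
            subst hTT
            have hAT : A ⊆ T'.1 := hA.trans (Finset.filter_subset _ _)
            rw [Finset.mem_biUnion]
            refine ⟨A, Finset.mem_filter.2 ⟨Finset.mem_powerset.2 hAT,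
              Finset.card_pos.2 hne, by omega⟩, ?_⟩
            rw [Finset.mem_biUnion]
            refine ⟨fun i => if i ∈ A then π i else d, ?_, ?_⟩
            · rw [Fintype.mem_piFinset]
              intro i
              by_cases hiA : i ∈ A <;> simp [hiA]
            rw [Finset.mem_image]
            refine ⟨setOn ρ A π, ?_, ?_⟩
            · rw [Finset.mem_filter]
              refine ⟨Finset.mem_univ _, ?_⟩
              have hk : A.card + k - A.card = k := by omega
              rw [hk]
              convert hE using 1
              funext i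
              unfold setOn
              by_cases hiA : i ∈ A
              · have : ρ'' i = some (π i) :=
                  hE.ext i (π i) (by unfold setOn; rw [if_pos hiA])
                rw [this]
                simp [hiA]
              · simp [hiA, hρ', setOn]
            · funext i
              unfold unset setOn
              by_cases hiA : i ∈ A
              · simp only [hiA, if_true]
                exact (stars_none hA hiA).symm
              · simp only [hiA, if_false]
        have ht0 : (0 : ℝ) < t := by exact_mod_cast ht
        have h1 : ((univ.filter (fun ρ : Rst I Λ => Enc3 L m ρ ρ')).card : ℝ) ≤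
            ∑ A ∈ T.1.powerset.filter (fun A => 1 ≤ A.card ∧ A.card ≤ m),
              s ^ A.card * (2 * s * t) ^ (m - A.card) := by
          have h2 : ((univ.filter (fun ρ : Rst I Λ => Enc3 L m ρ ρ')).card) ≤
            ∑ A ∈ T.1.powerset.filter (fun A => 1 ≤ A.card ∧ A.card ≤ m),
              ∑ P ∈ Fintype.piFinset (fun i => if i ∈ A then (univ : Finset Λ) else {d}),
                (univ.filter (fun ρ : Rst I Λ =>
                Enc3 L (m - A.card) ρ (setOn ρ' A P))).card := by
            refine (Finset.card_le_card hsub).trans ?_
            refine Finset.card_biUnion_le.trans ?_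
            refine Finset.sum_le_sum fun A _ => ?_
            refine Finset.card_biUnion_le.trans ?_
            exact Finset.sum_le_sum fun P _ => Finset.card_image_le
          have h3 : ((univ.filter (fun ρ : Rst I Λ => Enc3 L m ρ ρ')).card : ℝ) ≤
            ∑ A ∈ T.1.powerset.filter (fun A => 1 ≤ A.card ∧ A.card ≤ m),
              ∑ P ∈ Fintype.piFinset (fun i => if i ∈ A then (univ : Finset Λ) else {d}),
                ((univ.filter (fun ρ : Rst I Λ =>
                Enc3 L (m - A.card) ρ (setOn ρ' A P))).card : ℝ) := by
            exact_mod_cast h2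
          refine h3.trans ?_
          refine Finset.sum_le_sum fun A hA => ?_
          rw [Finset.mem_filter] at hA
          refine (Finset.sum_le_card_nsmul _ _ ((2 * s * (t:ℝ)) ^ (m - A.card)) fun P _ =>
            ih (m - A.card) (by omega) _).trans ?_
          rw [Fintype.card_piFinset, nsmul_eq_mul]
          have hcard : ∏ i, (if i ∈ A then (univ : Finset Λ) else {d}).card =
              Fintype.card Λ ^ A.card := by
            have : ∀ i, (if i ∈ A then (univ : Finset Λ) else {d}).card =
                if i ∈ A then Fintype.card Λ else 1 := by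
              intro i
              by_cases hiA : i ∈ A
              · rw [if_pos hiA, if_pos hiA, card_univ]
              · rw [if_neg hiA, if_neg hiA, card_singleton]
            rw [prod_congr rfl (fun i _ => this i), Finset.prod_ite_mem, Finset.univ_inter,
              Finset.prod_const]
          rw [hcard]
          push_cast
          exact le_refl _
        refine h1.trans ?_
        have h4 : ∀ A ∈ T.1.powerset.filter (fun A => 1 ≤ A.card ∧ A.card ≤ m),
            s ^ A.card * (2 * s * t) ^ (m - A.card) =
            (2 * s * t) ^ m * (1 / (2 * t)) ^ A.card := by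
          intro A hA
          rw [Finset.mem_filter] at hA
          have : (2 * s * (t : ℝ)) ^ m = (2 * s * t) ^ (m - A.card) * (2 * s * t) ^ A.card := by
            rw [← pow_add]; congr 1; omega
          have h5 : 2 * s * (t : ℝ) * (1 / (2 * t)) = s := by field_simp
          have h5' : (2 * s * (t : ℝ)) ^ A.card * (1 / (2 * t)) ^ A.card = s ^ A.card := by
            rw [← mul_pow, h5]
          rw [this, mul_assoc _ _ ((1 / (2 * (t : ℝ))) ^ A.card), h5', mul_comm]
        rw [Finset.sum_congr rfl h4, ← Finset.mul_sum]
        have h6 : ∑ A ∈ T.1.powerset.filter (fun A => 1 ≤ A.card ∧ A.card ≤ m),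
            (1 / (2 * (t : ℝ))) ^ A.card ≤ 1 := by
          have h7 : ∑ A ∈ T.1.powerset.filter (fun A => 1 ≤ A.card ∧ A.card ≤ m),
              (1 / (2 * (t : ℝ))) ^ A.card ≤
              ∑ A ∈ T.1.powerset.erase ∅, (1 / (2 * (t : ℝ))) ^ A.card := by
            apply Finset.sum_le_sum_of_subset_of_nonneg
            · intro A hA
              rw [Finset.mem_filter] at hA
              rw [Finset.mem_erase]
              refine ⟨?_, hA.1⟩
              intro h
              rw [h] at hA
              simp at hA
            · intro A _ _
              positivity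
          have h8 := Finset.add_sum_erase T.1.powerset
            (fun A => (1 / (2 * (t : ℝ))) ^ A.card) (Finset.empty_mem_powerset T.1)
          have h9 : ∑ A ∈ T.1.powerset, (1 / (2 * (t : ℝ))) ^ A.card =
              (1 / (2 * (t : ℝ)) + 1) ^ T.1.card := by
            have := Finset.sum_pow_mul_eq_add_pow (1 / (2 * (t : ℝ))) 1 T.1
            simpa using this
          have h10 : (1 / (2 * (t : ℝ)) + 1) ^ T.1.card ≤ 2 := by
            calc (1 / (2 * (t : ℝ)) + 1) ^ T.1.card ≤ (1 / (2 * (t : ℝ)) + 1) ^ t :=
                  pow_le_pow_right₀ (by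
                    have : (0:ℝ) < 1 / (2 * t) := by positivity
                    linarith) (hL T hTmem)
              _ ≤ (Real.exp (1 / (2 * t))) ^ t := by
                  apply pow_le_pow_left₀ (by positivity)
                  exact Real.add_one_le_exp _
              _ = Real.exp (1 / 2) := by
                  rw [← Real.exp_nat_mul]
                  congr 1
                  field_simp
              _ ≤ 2 := by
                  have := Real.exp_one_lt_d9
                  have h5 : Real.exp (1 / 2) ^ 2 = Real.exp 1 := by
                    rw [← Real.exp_nat_mul]; norm_num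
                  have h6 : 0 < Real.exp (1 / 2) := Real.exp_pos _
                  nlinarith
          rw [h9] at h8
          simp only [Finset.card_empty, pow_zero] at h8
          linarith
        have h11 : (0 : ℝ) ≤ (2 * s * t) ^ m := by positivity
        nlinarith

open Classical in
/-- The switching lemma for unions of cylinders of codimension at most `t`. -/
theorem switch_dnf [Inhabited Λ] {t k : ℕ} (ht : 1 ≤ t) {q : ℝ} (h0 : 0 ≤ q) (h1 : q ≤ 1 / 3)
    (L : List (Term I Λ)) (hL : ∀ T ∈ L, T.1.card ≤ t) :
    Ex (wq Λ q) (fun ρ : Rst I Λ => if ¬ DTr k (fun x => Dnf L (ov ρ x)) then (1 : ℝ) else 0) ≤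
      (3 * (Fintype.card Λ : ℝ) ^ 2 * t * q) ^ (k + 1) := by
  have hs0 : (0 : ℝ) < Fintype.card Λ := by exact_mod_cast Fintype.card_pos
  have hstep : ∀ ρ : Rst I Λ, (∏ i, wq Λ q (ρ i)) *
      (if ¬ DTr k (fun x => Dnf L (ov ρ x)) then (1 : ℝ) else 0) ≤
      ∑ ρ' : Rst I Λ, if Enc3 L (k + 1) ρ ρ' then
        (3 / 2 * Fintype.card Λ * q) ^ (k + 1) * ∏ i, wq Λ q (ρ' i) else 0 := by
    intro ρ
    have hnn : ∀ ρ' : Rst I Λ, 0 ≤ (if Enc3 L (k + 1) ρ ρ' then
        (3 / 2 * Fintype.card Λ * q) ^ (k + 1) * ∏ i, wq Λ q (ρ' i) else 0) := by
      intro ρ'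
      split_ifs
      · exact mul_nonneg (by positivity)
          (Finset.prod_nonneg fun i _ => wq_nonneg h0 (by linarith) _)
      · exact le_refl _
    by_cases hJ : DTr k (fun x => Dnf L (ov ρ x))
    · simp only [hJ, not_true, if_false, mul_zero]
      exact Finset.sum_nonneg fun ρ' _ => hnn ρ'
    · obtain ⟨ρ', hE⟩ := Enc3.exists k ρ hJ
      simp only [hJ, not_false_iff, if_true, mul_one]
      refine (hE.weight h0 h1).trans ?_
      have := Finset.single_le_sum (fun ρ' _ => hnn ρ') (Finset.mem_univ ρ')
      rw [if_pos hE] at this
      exact this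
  unfold Ex
  refine (Finset.sum_le_sum fun ρ _ => hstep ρ).trans ?_
  rw [Finset.sum_comm]
  have hin : ∀ ρ' : Rst I Λ, ∑ ρ : Rst I Λ,
      (if Enc3 L (k + 1) ρ ρ' then
        (3 / 2 * Fintype.card Λ * q) ^ (k + 1) * ∏ i, wq Λ q (ρ' i) else 0) ≤
      (3 * (Fintype.card Λ : ℝ) ^ 2 * t * q) ^ (k + 1) * ∏ i, wq Λ q (ρ' i) := by
    intro ρ'
    rw [← Finset.sum_filter, Finset.sum_const, nsmul_eq_mul]
    have hc := Enc3.count ht hL (k + 1) ρ'
    have hp : 0 ≤ (3 / 2 * Fintype.card Λ * q) ^ (k + 1) * ∏ i, wq Λ q (ρ' i) :=
      mul_nonneg (by positivity)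
          (Finset.prod_nonneg fun i _ => wq_nonneg h0 (by linarith) _)
    calc _ ≤ (2 * Fintype.card Λ * (t : ℝ)) ^ (k + 1) *
          ((3 / 2 * Fintype.card Λ * q) ^ (k + 1) * ∏ i, wq Λ q (ρ' i)) :=
          mul_le_mul_of_nonneg_right hc hp
      _ = (3 * (Fintype.card Λ : ℝ) ^ 2 * t * q) ^ (k + 1) * ∏ i, wq Λ q (ρ' i) := by
          rw [← mul_assoc, ← mul_pow]
          congr 2
          ring
  refine (Finset.sum_le_sum fun ρ' _ => hin ρ').trans ?_
  rw [← Finset.mul_sum]
  have hs : ∑ ρ' : Rst I Λ, ∏ i, wq Λ q (ρ' i) = 1 := by
    have := Ex_const (I := I) (wq_sum (Λ := Λ) q) (1 : ℝ)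
    unfold Ex at this
    simpa using this
  rw [hs, mul_one]

end Main

end Pool.Agent.T6.H6.LC.Sw
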